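import Pool.Agent.H176.Mix.Weak
import Pool.Agent.TH214.Dom2
import Pool.Agent.W558.WT.All

/-!
# Towers of Artin-Schreier extensions: models over which logarithmic tangent vectors can be lifted
-/

set_option autoImplicit false
set_option linter.unusedVariables false
set_option linter.unusedSectionVars false

universe u

open Polynomial Pool.Agent.W558 Pool.Agent.W498.Tor Pool.Agent.W906.WT.Iso
open Pool.Agent.TH188.WQ (Cp)

namespace Pool.Agent.H176.Mix

section as

variable {k L : Type u} [Field k] [Field L] [Algebra k L] {T0 I0 : Type} [Fintype I0] {ι : Type}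
  [Fintype ι] {M0 : LM (⊥ : Subalgebra k L) ⊤ T0 I0}
  {n : ι → I0 → ℤ} {h : T0 → ι → L} {hA : ∀ t j, h t j ∈ M0.A t}
  {K : Type u} [Field K] [Algebra k K] [Algebra L K] [IsScalarTower k L K]

/-- The form of the normal form of a combination vanishes on the poles if the forms of the
functions vanish. -/
lemma om_zero {p : ℕ} [Fact p.Prime] [CharP K p] {T I : Type} [Finite T] [Fintype I]
    {M : LM (⊥ : Subalgebra k K) ⊤ T I} {π : T → T0} {Θ : I → I0 → ℤ}
    (ho : Pool.Agent.TH188.WQ.Ovr M0 M π Θ) (hn0 : ∀ j i, n j i ≤ 0) {f' : ι → K}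
    {N : ι → I → ℤ} {a' h' : T → ι → K} {Λ : Submodule (ZMod p) (ι → ZMod p)} {R : T → Set ι}
    (hW : TWw p M f' N a' h' Λ R) (hN : ∀ j i, N j i = ∑ i0, Θ i i0 * n j i0)
    (hh : ∀ t j, h' t j = algebraMap L K (h (π t) j))
    {lam : ι → ZMod p} {n1 : I → ℤ} {h1 : T → K} {lr : T → ι → ZMod p} {j0 : T → ι}
    (hTN : TN p M N h' Λ R lam n1 h1 lr j0) (hA1 : ∀ t, h1 t ∈ M.A t)
    (t : T) (κ : Type u) [Field κ] [Algebra k κ] (φ : M.A t →ₐ[k] κ) (ψ : M0.A (π t) →ₐ[k] κ)
    (hψ : ∀ a (ha : a ∈ M0.A (π t)), φ ⟨algebraMap L K a, ho.le t a ha⟩ = ψ ⟨a, ha⟩)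
    (v0 : LT ψ (M0.x (π t))) (v : LT φ (M.x t)) (hv : Cp v0 v Θ)
    (hK : ∀ j ∈ (Set.univ : Set ι), Pole M0 (π t) ψ (n j) → om v0 (n j) (hA (π t) j) = 0)
    (hp : Pole M t φ n1) : om v n1 (hA1 t) = 0 := by
  obtain ⟨y, hy1, -, -, hy4⟩ := om_pole hW.n0 hW.hA hTN hA1 t κ φ hp
  rw [hy4 v]
  refine Finset.sum_eq_zero fun l _ => ?_
  by_cases hpl : Pole M t φ (N l)
  · have h2 : Pole M0 (π t) ψ (n l) := pole_pull ho t φ ψ hψ (hn0 l) (hN l) hpl
    have h3 := hK l (Set.mem_univ l) h2
    have h4 := hv.om (n l) (hA (π t) l) (ho.le t _ (hA (π t) l))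
    have h5 : om v (N l) (hW.hA t l) =
        om v (fun i => ∑ i0, Θ i i0 * n l i0) (ho.le t _ (hA (π t) l)) :=
      om_congr v _ _ (funext fun i => hN l i) (hh t l)
    rw [h5, h4, h3, mul_zero]
  · rw [hy1 l hpl, zero_mul]

variable (n h hA) in
/-- The extension `K` of `L` has a model over the model `M0`, with the normal form of a tower of
Artin-Schreier extensions. -/
def GTA (p : ℕ) (f : ι → L) {G : Type} (g : G → L)
    (K : Type u) [Field K] [Algebra k K] [Algebra L K] [IsScalarTower k L K] [CharP K p] : Prop :=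
  ∃ (T I : Type) (_ : Finite T) (_ : Fintype I) (M : LM (⊥ : Subalgebra k K) ⊤ T I)
    (π : T → T0) (Θ : I → I0 → ℤ) (N : ι → I → ℤ) (a' h' : T → ι → K)
    (Λ : Submodule (ZMod p) (ι → ZMod p)) (R : T → Set ι) (Γ : G → I → ℤ),
    ASt n h hA Set.univ M π Θ ∧ TWw p M (fun j => algebraMap L K (f j)) N a' h' Λ R ∧
    (∀ j i, N j i = ∑ i0, Θ i i0 * n j i0) ∧ (∀ t j, h' t j = algebraMap L K (h (π t) j)) ∧
    Fn M (fun b => algebraMap L K (g b)) Γ ∧ Frc M

/-- The beginning. -/
theorem gta_init {p : ℕ} [Fact p.Prime] [CharP L p] [Finite T0] {f : ι → L} {a : T0 → ι → L}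
    (hN : NBW p M0 f n a h) {G : Type} {g : G → L} {Γ : G → I0 → ℤ} (hG : Fn M0 g Γ)
    (hR : Frc M0) : GTA n h hN.hA p f g L := by
  classical
  obtain ⟨T', I', iT, iI, M', π, Θ, hOv, hΘ, hC⟩ := wa_ovp k L ⊥ ⊤ T0 I0 ι M0 n
  have hS : ASt (K := L) n h hN.hA Set.univ M' π Θ := ASt.of_ov n h hN.hA Set.univ hOv hΘ
  refine ⟨T', I', iT, iI, M', π, Θ, fun j i' => ∑ i, Θ i' i * n j i, fun t' j => a (π t') j,
    fun t' j => h (π t') j, ⊥, fun _ => ∅, _, hS, ?_, fun j i => rfl, fun t j => rfl,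
    hG.ov hOv, hR.ov hOv⟩
  have hh : ∀ t' j, h (π t') j ∈ M'.A t' := fun t' j => hOv.le t' (hN.hA (π t') j)
  refine { n0 := ?_, hA := hh, eq := ?_, cmp := ?_, wl := ?_, ech := ?_, rep := ?_, ln := ?_ }
  · intro j i'
    refine Finset.sum_nonpos fun i _ => ?_
    exact mul_nonpos_of_nonneg_of_nonpos (hΘ i' i) (hN.n0 j i)
  · intro t' j
    change f j = _
    rw [hN.eq (π t') j, ← Pool.Agent.W32.WT.mon_pull (ovr_to hS.ov) t' (n j)]
    rfl
  · intro t' j l
    exact hC j l t'
  · intro μ hμ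
    rw [Submodule.mem_bot] at hμ
    refine ⟨0, ?_⟩
    rw [hμ]
    simp [zero_pow (Fact.out : p.Prime).ne_zero]
  · intro t' μ hμ hμ0
    rw [Submodule.mem_bot] at hμ
    exact absurd hμ hμ0
  · intro t' lam
    exact ⟨0, Submodule.zero_mem _, fun j hj => absurd hj (Set.notMem_empty j)⟩
  · intro t' κ _ _ φ j _ hp
    let ψ : M0.A (π t') →ₐ[k] κ := φ.comp (Subalgebra.inclusion (hOv.le t'))
    have h1 : Pole M0 (π t') ψ (n j) :=
      pole_pull hS.ov t' φ ψ (fun a ha => rfl) (hN.n0 j) (fun i => rfl) hp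
    obtain ⟨v0, hv1, hv2⟩ := hN.ln (π t') κ ψ j h1
    obtain ⟨v', hw1, hw2⟩ := hOv.lt t' κ φ v0
    have hc : Cp v0 v' Θ := ⟨fun a ha ha' => rfl, fun a ha ha' => hw1 a ha, hw2⟩
    refine ⟨v', ?_, ?_⟩
    · rw [hc.om (n j) (hN.hA (π t') j) (hh t' j)]
      exact hv1
    · intro l _ hl hpl
      rw [hc.om (n l) (hN.hA (π t') l) (hh t' l)]
      exact hv2 l hl (pole_pull hS.ov t' φ ψ (fun a ha => rfl) (hN.n0 l) (fun i => rfl) hpl)

/-- Transport. -/
theorem GTA.surj {p : ℕ} [Fact p.Prime] [CharP K p] {f : ι → L} {G : Type} {g : G → L}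
    (hM : GTA n h hA p f g K) (K1 : Type u) [Field K1] [Algebra k K1] [Algebra L K1] [Algebra K K1]
    [IsScalarTower k L K1] [IsScalarTower k K K1] [IsScalarTower L K K1] [CharP K1 p]
    (hsurj : Function.Surjective (algebraMap K K1)) : GTA n h hA p f g K1 := by
  obtain ⟨T, I, hT, hI, M, π, Θ, N, a', h', Λ, R, Γ, hS, hW, hN, hh, hFn, hFrc⟩ := hM
  obtain ⟨h4, h5, h6⟩ := iso_mapw (K := K1) hsurj _ Γ hW hFn hFrc
  have e1 : (fun j => algebraMap K K1 (algebraMap L K (f j))) = fun j => algebraMap L K1 (f j) :=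
    funext fun j => (IsScalarTower.algebraMap_apply L K K1 _).symm
  have e2 : (fun b => algebraMap K K1 (algebraMap L K (g b))) = fun b => algebraMap L K1 (g b) :=
    funext fun b => (IsScalarTower.algebraMap_apply L K K1 _).symm
  rw [e1] at h4
  rw [e2] at h5
  refine ⟨T, I, hT, hI, mapLM (K := K1) M, π, Θ, N, _, _, Λ, R, Γ, hS.surj K1 hsurj, h4, hN, ?_,
    h5, h6⟩
  intro t j
  rw [hh, IsScalarTower.algebraMap_apply L K K1]

variable {p : ℕ} [Fact p.Prime] [PerfectField k] [CharP k p]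

/-- One step of a tower. -/
theorem gta_step {f : ι → L} {G : Type} {g : G → L} (hn0 : ∀ j i, n j i ≤ 0) (K K1 : Type u)
    [Field K] [Algebra k K] [Algebra L K] [IsScalarTower k L K] [CharP K p]
    [Field K1] [Algebra k K1] [Algebra L K1] [Algebra K K1]
    [IsScalarTower k L K1] [IsScalarTower k K K1] [IsScalarTower L K K1] [CharP K1 p]
    (hM : GTA n h hA p f g K) (lam : ι → ZMod p) (z : K1)
    (hz : z ^ p - z = ∑ j, zc p K1 (lam j) * algebraMap L K1 (f j))
    (hgen0 : IntermediateField.adjoin K {z} = ⊤) : GTA n h hA p f g K1 := by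
  have hp : p.Prime := Fact.out
  have hall := wt_pack.{u}
  have hz1 : z ^ p - z = ∑ j, zc p K1 (lam j) * algebraMap K K1 (algebraMap L K (f j)) := by
    rw [hz]
    refine Finset.sum_congr rfl fun j _ => ?_
    rw [IsScalarTower.algebraMap_apply L K K1]
  have hzf : z ^ p - z = algebraMap K K1 (∑ j, zc p K (lam j) * algebraMap L K (f j)) := by
    rw [hz1, map_sum]
    refine Finset.sum_congr rfl fun j _ => ?_
    rw [map_mul, alg_zc]
  by_cases hzL : ∃ b : K, b ^ p - b = ∑ j, zc p K (lam j) * algebraMap L K (f j)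
  · obtain ⟨b, hb⟩ := hzL
    have h1 : (z - algebraMap K K1 b) ^ p = z - algebraMap K K1 b := by
      rw [sub_pow_char]
      have h2 : algebraMap K K1 b ^ p - algebraMap K K1 b = z ^ p - z := by
        rw [← map_pow, ← map_sub, hb, hzf]
      linear_combination -h2
    obtain ⟨c, hc⟩ := Pool.Agent.W558.zc_of_pow p _ h1
    have h2 : z = algebraMap K K1 (b + zc p K c) := by
      rw [map_add, alg_zc]
      linear_combination hc
    refine hM.surj K1 ?_
    have h4 : IntermediateField.adjoin K {z} = ⊥ := by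
      rw [IntermediateField.adjoin_simple_eq_bot_iff, h2]
      exact IntermediateField.algebraMap_mem _ _
    rw [h4] at hgen0
    intro y
    have h5 : y ∈ (⊤ : IntermediateField K K1) := trivial
    rw [← hgen0] at h5
    exact IntermediateField.mem_bot.1 h5
  · push Not at hzL
    obtain ⟨T, I, hT, hI, M, π, Θ, N, a', h', Λ, R, Γ, hS, hW, hN, hh, hFn, hFrc⟩ := hM
    have hlam : lam ∉ Λ := by
      intro hl
      obtain ⟨w, hw⟩ := hW.wl lam hl
      exact hzL w hw
    have hgen : ∀ y : K1, ∃ P : K[X], aeval z P = y := by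
      intro y
      have hint : IsIntegral K z := by
        refine ⟨X ^ p - (X + C (∑ j, zc p K (lam j) * algebraMap L K (f j))), ?_, ?_⟩
        · apply monic_X_pow_sub
          rw [degree_X_add_C]
          exact_mod_cast hp.one_lt
        · rw [← aeval_def, map_sub, map_add, map_pow, aeval_X, aeval_C, ← hzf]
          ring
      have h8 : y ∈ Algebra.adjoin K {z} := by
        have h9 : y ∈ (IntermediateField.adjoin K {z}).toSubalgebra := by
          rw [hgen0]; trivial
        rwa [IntermediateField.adjoin_simple_toSubalgebra_of_isAlgebraic hint.isAlgebraic] at h9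
      rw [Algebra.adjoin_singleton_eq_range_aeval] at h8
      exact h8
    obtain ⟨n1, h1, lr, j0, hTN⟩ := tnw p hW lam hlam
    obtain ⟨a1, hN1⟩ := nasw hW hTN
    set f' : K := ∑ j, zc p K (lam j) * algebraMap L K (f j) with hf'
    have hirr : Irreducible (X ^ p - X - C f' : K[X]) := hall.irr p K f' hzL
    have hF : Prime (X ^ p - X - C f' : K[X]) := hirr.prime
    have hz0 : aeval z (X ^ p - X - C f' : K[X]) = 0 := by
      rw [map_sub, map_sub, map_pow, aeval_X, aeval_C, hzf, sub_self]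
    have hmon : (X ^ p - X - C f' : K[X]).Monic := by
      have h1 : (X ^ p - X - C f' : K[X]) = X ^ p - (X + C f') := by ring
      rw [h1]
      apply monic_X_pow_sub
      rw [degree_X_add_C]
      exact_mod_cast hp.one_lt
    have hz' : ∀ P : K[X], aeval z P = 0 ↔ (X ^ p - X - C f' : K[X]) ∣ P := by
      intro P
      have h1 : minpoly K z = X ^ p - X - C f' :=
        (minpoly.eq_of_irreducible_of_monic hirr hz0 hmon).symm
      rw [← h1]
      exact (minpoly.dvd_iff).symm
    let N' := FractionRing K[X]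
    let Z : N' := algebraMap K[X] N' X
    have hZ : ∀ P : K[X], aeval Z P = algebraMap K[X] N' P := by
      intro P
      have h1 : aeval Z = IsScalarTower.toAlgHom K K[X] N' := by
        ext; simp [Z]
      rw [h1]; rfl
    have htr : Transcendental K Z := by
      rw [transcendental_iff]
      intro P hP
      rw [hZ] at hP
      exact (FaithfulSMul.algebraMap_eq_zero_iff K[X] N').1 hP
    have hfr : ∀ x : N', ∃ P P' : K[X], P' ≠ 0 ∧ x * aeval Z P' = aeval Z P := by
      intro x
      obtain ⟨P, P', hP, rfl⟩ := IsFractionRing.div_surjective (A := K[X]) x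
      have h0 := nonZeroDivisors.ne_zero hP
      refine ⟨P, P', h0, ?_⟩
      rw [hZ, hZ, div_mul_cancel₀ _ (alg_ne_zero h0)]
    have hQ : IsQA p Z f' (FQ (k := k) hF) := by
      intro x
      simp only [hZ]
      exact mem_FQ hF
    obtain ⟨T1, I1, hT1, hI1, M1, y1, c1, μ1, Γ1, hP1, hL1, hF1⟩ :=
      hall.bun p k K N' T I G M f' n1 a1 h1 (fun b => algebraMap L K (g b)) Γ hN1 hFrc hFn hzL Z
        htr hfr (FQ (k := k) hF) hQ
    obtain ⟨T2, I2, hT2, hI2, M2, y2, c2, μ2, Γ2, hP2, hL2, hF2, hfin⟩ :=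
      hall.ppr p k K N' T I T1 I1 G M f' n1 a1 h1 M1 _ (FQ (k := k) hF) y1 c1 μ1
        (fun b => algebraMap K N' (algebraMap L K (g b))) Γ1 hN1 hP1 hL1 hF1
    have eF : Z ^ p - Z - algebraMap K N' f' = algebraMap K[X] N' (X ^ p - X - C f') := by
      rw [← hZ, map_sub, map_sub, map_pow, aeval_X, aeval_C]
    rw [eF] at hP2
    obtain ⟨T3, I3, hT3, hI3, M3, π', Θ', ho, Γ3, hCL, hF3, hR3⟩ :=
      hall.pcut p k K N' K1 T I T2 I2 G M f' n1 a1 h1 M2 _ (FQ (k := k) hF) y2 c2 μ2
        (fun b => algebraMap L K (g b)) Γ2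
        hN1 hP2 hL2 hF2 hfin (mem_FQ_of hF) (alg_ne_zero hF.ne_zero) (piZ hF z hz')
        (piZ_eq_zero hF z hz') (piZ_surj hF z hz' hgen) (FQ_total hF) (by
          intro l hl
          have h1 : algebraMap K N' l = algebraMap K[X] N' (C l) := by
            rw [← hZ, aeval_C]
          have h2 : (⟨algebraMap K N' l, hl⟩ : FQ (k := k) hF) =
              ⟨algebraMap K[X] N' (C l), mem_FQ_of hF⟩ := Subtype.ext h1
          rw [h2, piZ_alg, aeval_C])
    have hTW := nxtw hW hTN hN1.hA M3 ho hCL z hz1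
    have e1 : (fun j => algebraMap K K1 (algebraMap L K (f j))) =
        fun j => algebraMap L K1 (f j) :=
      funext fun j => (IsScalarTower.algebraMap_apply L K K1 _).symm
    have e2 : (fun b => algebraMap K K1 (algebraMap L K (g b))) =
        fun b => algebraMap L K1 (g b) :=
      funext fun b => (IsScalarTower.algebraMap_apply L K K1 _).symm
    rw [e1] at hTW
    rw [e2] at hF3
    refine ⟨T3, I3, hT3, hI3, M3, fun t => π (π' t), fun i1 i0 => ∑ i, Θ' i1 i * Θ i i0, _, _, _,
      _, _, Γ3, ?_, hTW, ?_, ?_, hF3, hR3⟩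
    · refine hS.next ho n1 h1 hN1.hA hCL Set.univ (le_refl _) ?_
      intro t κ _ _ φ ψ hψ v0 v hv hK hpole
      exact om_zero hS.ov hn0 hW hN hh hTN hN1.hA t κ φ ψ hψ v0 v hv hK hpole
    · intro j i1
      have h2 : ∀ i, Θ' i1 i * N j i = ∑ i0, (Θ' i1 i * Θ i i0) * n j i0 := by
        intro i
        rw [hN, Finset.mul_sum]
        exact Finset.sum_congr rfl fun i0 _ => by ring
      rw [Finset.sum_congr rfl fun i _ => h2 i, Finset.sum_comm]
      refine Finset.sum_congr rfl fun i0 _ => ?_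
      rw [Finset.sum_mul]
    · intro t j
      change algebraMap K K1 (h' (π' t) j) = _
      rw [hh, ← IsScalarTower.algebraMap_apply L K K1]

/-- Towers. -/
theorem gta_tower {f : ι → L} {G : Type} {g : G → L} (hn0 : ∀ j i, n j i ≤ 0) :
    ∀ (r : ℕ) (K K1 : Type u) [Field K] [Algebra k K] [Algebra L K]
    [IsScalarTower k L K] [CharP K p] [Field K1] [Algebra k K1] [Algebra L K1] [Algebra K K1]
    [IsScalarTower k L K1] [IsScalarTower k K K1] [IsScalarTower L K K1] [CharP K1 p],
    GTA n h hA p f g K → ∀ (w : Fin r → K1) (lam : Fin r → ι → ZMod p),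
    (∀ j, w j ^ p - w j = ∑ l, zc p K1 (lam j l) * algebraMap L K1 (f l)) →
    IntermediateField.adjoin K (Set.range w) = ⊤ → GTA n h hA p f g K1 := by
  have hp : p.Prime := Fact.out
  intro r
  induction r with
  | zero =>
    intro K K1 _ _ _ _ _ _ _ _ _ _ _ _ _ hM w lam hw hgen
    refine hM.surj K1 ?_
    rw [Set.range_eq_empty, IntermediateField.adjoin_empty] at hgen
    intro y
    have h5 : y ∈ (⊤ : IntermediateField K K1) := trivial
    rw [← hgen] at h5
    exact IntermediateField.mem_bot.1 h5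
  | succ r ih =>
    intro K K1 _ _ _ _ _ _ _ _ _ _ _ _ _ hM w lam hw hgen
    let L1 := IntermediateField.adjoin K {w 0}
    have tL1 : IsScalarTower k L1 K1 := IsScalarTower.of_algebraMap_eq fun c => rfl
    let _ : Algebra L L1 := ((algebraMap K L1).comp (algebraMap L K)).toAlgebra
    have t1 : IsScalarTower L K L1 := IsScalarTower.of_algebraMap_eq fun c => rfl
    have t2 : IsScalarTower k L L1 := IsScalarTower.of_algebraMap_eq fun c => by
      rw [IsScalarTower.algebraMap_apply k K L1, IsScalarTower.algebraMap_apply k L K]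
      rfl
    have t3 : IsScalarTower L L1 K1 := IsScalarTower.of_algebraMap_eq fun c => by
      rw [IsScalarTower.algebraMap_apply L K K1]
      rfl
    have hL1 : CharP L1 p := charP_of_injective_algebraMap (algebraMap K L1).injective p
    let z : L1 := ⟨w 0, IntermediateField.mem_adjoin_simple_self K (w 0)⟩
    have hM1 : GTA n h hA p f g L1 := by
      refine gta_step hn0 K L1 hM (lam 0) z ?_ ?_
      · apply Subtype.ext
        have h1 := hw 0
        have h2 : ((∑ j, zc p L1 (lam 0 j) * algebraMap L L1 (f j) : L1) : K1) =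
            ∑ l, zc p K1 (lam 0 l) * algebraMap L K1 (f l) := by
          change algebraMap L1 K1 _ = _
          rw [map_sum]
          refine Finset.sum_congr rfl fun j _ => ?_
          rw [map_mul, alg_zc, ← IsScalarTower.algebraMap_apply L L1 K1]
        rw [h2, ← h1]
        rfl
      · apply IntermediateField.lift_injective L1
        rw [IntermediateField.lift_adjoin_simple, IntermediateField.lift_top]
    refine ih L1 K1 hM1 (fun j => w j.succ) (fun j => lam j.succ) (fun j => hw j.succ) ?_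
    rw [← IntermediateField.restrictScalars_eq_top_iff (K := K),
      IntermediateField.adjoin_adjoin_left, ← hgen]
    congr 1
    ext y
    constructor
    · rintro (hy | ⟨j, rfl⟩)
      · exact ⟨0, hy.symm⟩
      · exact ⟨j.succ, rfl⟩
    · rintro ⟨j, rfl⟩
      refine Fin.cases ?_ (fun j => ?_) j
      · exact Or.inl rfl
      · exact Or.inr ⟨j, rfl⟩

end as

end Pool.Agent.H176.Mix
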