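import Pool.Agent.H176.Mix.Ins

/-!
# Resolution of the varieties over charts of the base
`LM_of_Dm` is copied from the second half of `Pool.Agent.TH214.LM_of_NBSd`.
-/

set_option autoImplicit false
set_option linter.unusedVariables false
set_option linter.unusedSectionVars false

universe u

open Polynomial AlgebraicGeometry CategoryTheory Pool.Agent.W558 Pool.Agent.TH214
open Pool.Agent.TH188.WQ (pw)

namespace Pool.Agent.H176.Mix

section gen

variable (k L K : Type u) [Field k] [PerfectField k] [Field L]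
  [Field K] [Algebra k L] [Algebra k K] [Algebra L K] [IsScalarTower k L K]

/-- Smooth charts over the varieties. -/
theorem LM_of_Dm {T0 I0 G T I : Type} [Finite T0] [Fintype I0] [Finite G] [Finite T] [Fintype I]
    (M : LM (⊥ : Subalgebra k L) ⊤ T0 I0) (M' : LM (⊥ : Subalgebra k K) ⊤ T I)
    {g : G → L} {Γ' : G → I → ℤ} (hF' : Fn M' (fun b => algebraMap L K (g b)) Γ')
    (hR' : Frc M') (hD' : Pool.Agent.TH214.Dm M.A (algebraMap L K) M')
    (A : Type u) [CommRing A] [IsDomain A] [Algebra k A] [Algebra A K]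
    [IsScalarTower k A K] [IsFractionRing A K] (J : Finset T0)
    (hJ : ∀ j ∈ J, ∀ x ∈ M.A j, ∃ a : A, algebraMap A K a = algebraMap L K x) (s : G → A)
    (hs : ∀ b, algebraMap A K (s b) = algebraMap L K (g b))
    (hA : ∀ a : A, IsIntegral (Algebra.adjoin k (Set.range s ∪
      {a : A | ∃ j ∈ J, ∃ x ∈ M.A j, algebraMap A K a = algebraMap L K x})) a) :
    ∃ (T I : Type) (_ : Finite T) (_ : Fintype I),
      Nonempty (LM (IsScalarTower.toAlgHom k A K).range (IsScalarTower.toAlgHom k A K).range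
        T I) := by
  classical
  have : Fintype G := Fintype.ofFinite G
  let g1 : G → K := fun b => algebraMap L K (g b)
  -- principalize
  let g' : Option G → K := fun o => o.elim 1 g1
  let Γ0 : Option G → I → ℤ := fun o => o.elim 0 Γ'
  have hF0 : Fn M' g' Γ0 := by
    rintro (_ | b) t
    · refine ⟨1, one_ne_zero, (M'.A t).one_mem, by rw [inv_one]; exact (M'.A t).one_mem, ?_⟩
      simp [g', Γ0]
    · exact hF' b t
  obtain ⟨T1, I1, iT1, iI1, M1, π, Θ, hE, hC⟩ := wd_ovp k K ⊥ ⊤ T I (Option G) M' Γ0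
  let Γ1 : Option G → I1 → ℤ := fun a i' => ∑ i, Θ i' i * Γ0 a i
  have hF1 : Fn M1 g' Γ1 := Pool.Agent.W462.WD.Res.fn_ov hE hF0
  have hT1 : Nonempty T1 := by
    obtain ⟨t, -⟩ := M1.cv ⊤ (fun a _ => trivial)
    exact ⟨t⟩
  have hg0 : ∀ b, g1 b ≠ 0 := by
    intro b
    obtain ⟨t⟩ := hT1
    obtain ⟨w, hw0, -, -, h1⟩ := hF1 (some b) t
    have h1' : g1 b = w * ∏ i, M1.x t i ^ Γ1 (some b) i := h1
    rw [h1']
    exact mul_ne_zero hw0 (Finset.prod_ne_zero_iff.2 fun i _ => zpow_ne_zero _ (M1.x0 t i))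
  have hcmp : ∀ t b, g1 b ∈ M1.A t ∨ (g1 b)⁻¹ ∈ M1.A t := by
    intro t b
    rcases hC none (some b) t with h1 | h1
    · left
      have h2 := div_mem_of_le M1 t g' Γ1 hF1 (a := none) (b := some b) h1
      have h3 : g' (some b) / g' none = g1 b := by simp [g']
      rwa [h3] at h2
    · right
      have h2 := div_mem_of_le M1 t g' Γ1 hF1 (a := some b) (b := none) h1
      have h3 : g' none / g' (some b) = (g1 b)⁻¹ := by simp [g']
      rwa [h3] at h2
  choose σ hσ using fun t => hD' (π t)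
  have hσ1 : ∀ t, ∀ a ∈ M.A (σ t), algebraMap L K a ∈ M1.A t := fun t a ha =>
    hE.le t (hσ t a ha)
  let S : T1 → Finset G := fun t => Finset.univ.filter fun b => g1 b ∉ M1.A t
  have hS : ∀ t b, b ∈ S t ↔ g1 b ∉ M1.A t := by
    intro t b
    simp [S]
  let q : T1 → T0 → K := fun t j => algebraMap L K (M.H j / M.H (σ t))
  have hq0 : ∀ t j, q t j ≠ 0 := fun t j =>
    (_root_.map_ne_zero _).2 (div_ne_zero (M.H0 j) (M.H0 _))
  have hqA : ∀ t j, q t j ∈ M1.A t := fun t j => hσ1 t _ (M.rt _ _)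
  let r1 : T1 → K := fun t => (∏ j ∈ J, q t j) * ∏ b ∈ S t, (g1 b)⁻¹
  let ρ : A →ₐ[k] K := IsScalarTower.toAlgHom k A K
  have hρ : Function.Injective ρ := IsFractionRing.injective A K
  have hgR : ∀ b, g1 b ∈ ρ.range := fun b => ⟨s b, hs b⟩
  have hJR : ∀ j ∈ J, ∀ x ∈ M.A j, algebraMap L K x ∈ ρ.range := by
    intro j hj x hx
    obtain ⟨a, ha⟩ := hJ j hj x hx
    exact ⟨a, ha⟩
  have hqR : ∀ t, ∀ j ∈ J, (q t j)⁻¹ ∈ ρ.range := by
    intro t j hj
    have h1 : (q t j)⁻¹ = algebraMap L K (M.H (σ t) / M.H j) := by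
      change (algebraMap L K (M.H j / M.H (σ t)))⁻¹ = _
      rw [← map_inv₀, inv_div]
    rw [h1]
    exact hJR j hj _ (M.rt _ _)
  have hr1mem : ∀ t, r1 t ∈ M1.A t := by
    intro t
    refine (M1.A t).mul_mem ((M1.A t).prod_mem fun j _ => hqA t j)
      ((M1.A t).prod_mem fun b hb => ?_)
    exact (hcmp t b).resolve_left ((hS t b).1 hb)
  have hr10 : ∀ t, r1 t ≠ 0 := fun t =>
    mul_ne_zero (Finset.prod_ne_zero_iff.2 fun j _ => hq0 t j)
      (Finset.prod_ne_zero_iff.2 fun b _ => inv_ne_zero (hg0 b))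
  have hr1R : ∀ t, (r1 t)⁻¹ ∈ ρ.range := by
    intro t
    change ((∏ j ∈ J, q t j) * ∏ b ∈ S t, (g1 b)⁻¹)⁻¹ ∈ ρ.range
    rw [mul_inv, ← Finset.prod_inv_distrib, ← Finset.prod_inv_distrib]
    refine ρ.range.mul_mem (ρ.range.prod_mem fun j hj => hqR t j hj)
      (ρ.range.prod_mem fun b _ => ?_)
    rw [inv_inv]
    exact hgR b
  -- the generators
  have hdiv : ∀ t (c d : K), r1 t = c * d → c ≠ 0 → d ∈ M1.A t → d ≠ 0 →
      c⁻¹ ∈ adj (M1.A t) (r1 t)⁻¹ := by
    intro t c d h1 h2 h3 h4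
    have h5 : c⁻¹ = d * (r1 t)⁻¹ := by
      rw [h1, mul_inv, mul_left_comm, mul_inv_cancel₀ h4, mul_one]
    rw [h5]
    exact (adj (M1.A t) (r1 t)⁻¹).mul_mem (le_adj _ _ h3) (self_mem_adj _ _)
  have hgX : ∀ t b, g1 b ∈ adj (M1.A t) (r1 t)⁻¹ := by
    intro t b
    by_cases h : g1 b ∈ M1.A t
    · exact le_adj _ _ h
    · have h1 : b ∈ S t := (hS t b).2 h
      have h2 := hdiv t (g1 b)⁻¹ ((∏ j ∈ J, q t j) * ∏ b' ∈ (S t).erase b, (g1 b')⁻¹) (by
        change (∏ j ∈ J, q t j) * ∏ b ∈ S t, (g1 b)⁻¹ = _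
        rw [← Finset.mul_prod_erase _ _ h1]
        ring) (inv_ne_zero (hg0 b)) (by
          refine (M1.A t).mul_mem ((M1.A t).prod_mem fun j _ => hqA t j)
            ((M1.A t).prod_mem fun b' hb' => ?_)
          exact (hcmp t b').resolve_left ((hS t b').1 (Finset.mem_of_mem_erase hb')))
        (mul_ne_zero (Finset.prod_ne_zero_iff.2 fun j _ => hq0 t j)
          (Finset.prod_ne_zero_iff.2 fun b _ => inv_ne_zero (hg0 b)))
      rwa [inv_inv] at h2
  have hJX : ∀ t, ∀ j ∈ J, ∀ x ∈ M.A j, algebraMap L K x ∈ adj (M1.A t) (r1 t)⁻¹ := by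
    intro t j hj x hx
    obtain ⟨N, hN⟩ := M.gl (σ t) j x hx
    have h1 : algebraMap L K ((M.H j / M.H (σ t)) ^ N * x) ∈ M1.A t := hσ1 t _ hN
    have h2 := hdiv t (q t j) ((∏ j' ∈ J.erase j, q t j') * ∏ b ∈ S t, (g1 b)⁻¹) (by
      change (∏ j ∈ J, q t j) * ∏ b ∈ S t, (g1 b)⁻¹ = _
      rw [← Finset.mul_prod_erase _ _ hj]
      ring) (hq0 t j) (by
        refine (M1.A t).mul_mem ((M1.A t).prod_mem fun j _ => hqA t j)
          ((M1.A t).prod_mem fun b' hb' => ?_)
        exact (hcmp t b').resolve_left ((hS t b').1 hb'))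
      (mul_ne_zero (Finset.prod_ne_zero_iff.2 fun j _ => hq0 t j)
        (Finset.prod_ne_zero_iff.2 fun b _ => inv_ne_zero (hg0 b)))
    have h3 : algebraMap L K x = algebraMap L K ((M.H j / M.H (σ t)) ^ N * x) *
        ((q t j)⁻¹) ^ N := by
      rw [map_mul, map_pow]
      change _ = (q t j) ^ N * _ * _
      rw [mul_right_comm, ← mul_pow, mul_inv_cancel₀ (hq0 t j), one_pow, one_mul]
    rw [h3]
    exact (adj (M1.A t) (r1 t)⁻¹).mul_mem (le_adj _ _ h1)
      ((adj (M1.A t) (r1 t)⁻¹).pow_mem h2 N)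
  let X0 : Set A := Set.range s ∪
      {a : A | ∃ j ∈ J, ∃ x ∈ M.A j, algebraMap A K a = algebraMap L K x}
  have hint : ∀ y ∈ ρ.range, IsIntegral (Algebra.adjoin k (ρ '' X0)) y := by
    rintro _ ⟨a, rfl⟩
    have h1 : Algebra.adjoin k (ρ '' X0) = (Algebra.adjoin k X0).map ρ := by
      rw [AlgHom.map_adjoin]
    rw [h1]
    obtain ⟨B, hB, hB'⟩ := hA a
    let φ : Algebra.adjoin k X0 →+* (Algebra.adjoin k X0).map ρ :=
      { toFun := fun y => ⟨ρ y, ⟨y, y.2, rfl⟩⟩
        map_one' := Subtype.ext (map_one ρ)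
        map_mul' := fun y y' => Subtype.ext (map_mul ρ _ _)
        map_zero' := Subtype.ext (map_zero ρ)
        map_add' := fun y y' => Subtype.ext (map_add ρ _ _) }
    refine ⟨B.map φ, hB.map φ, ?_⟩
    rw [eval₂_map]
    have h2 : ((algebraMap ((Algebra.adjoin k X0).map ρ) K).comp φ) =
        ρ.toRingHom.comp (algebraMap (Algebra.adjoin k X0) A) := RingHom.ext fun y => rfl
    rw [h2]
    have h3 := congrArg ρ.toRingHom hB'
    rw [hom_eval₂, map_zero] at h3
    exact h3
  have hfr : ∀ y : K, ∃ a ∈ ρ.range, ∃ b ∈ ρ.range, b ≠ 0 ∧ y = a * b⁻¹ := by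
    intro y
    obtain ⟨a, b, hb, rfl⟩ := IsFractionRing.div_surjective (A := A) y
    exact ⟨_, ⟨a, rfl⟩, _, ⟨b, rfl⟩, by
      have := nonZeroDivisors.ne_zero hb
      exact (FaithfulSMul.algebraMap_eq_zero_iff A K).not.2 this, div_eq_mul_inv _ _⟩
  obtain ⟨M2⟩ := res_gen M1 (hR'.ov hE) ρ.range (ρ '' X0) hint hfr r1 hr1mem hr10 hr1R (by
    rintro t _ ⟨a, (⟨b, rfl⟩ | ⟨j, hj, x, hx, hax⟩), rfl⟩
    · have h1 : ρ (s b) = g1 b := hs b
      rw [h1]
      exact hgX t b
    · have h1 : ρ a = algebraMap L K x := hax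
      rw [h1]
      exact hJX t j hj x hx)
  exact ⟨T1, I1, iT1, iI1, ⟨M2⟩⟩

end gen

section mixed

variable (p : ℕ) [Fact p.Prime] {k L K : Type u} [Field k] [PerfectField k] [CharP k p] [Field L]
  [Field K] [Algebra k L] [Algebra k K] [Algebra L K] [IsScalarTower k L K]

/-- The coefficients. -/
lemma exists_coeff [CharP L p] [CharP K p] {ι : Type} [Fintype ι] (f : ι → L) {y : K}
    (hy : y ∈ AddSubgroup.closure
      ((Set.range fun t => algebraMap L K (f t)) ∪
        Set.range fun b : L => algebraMap L K (b ^ p - b))) :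
    ∃ (lam : ι → ℤ) (b : L), y = algebraMap L K (∑ i, lam i • f i + (b ^ p - b)) := by
  classical
  rw [AddSubgroup.closure_union, AddSubgroup.mem_sup] at hy
  obtain ⟨a, ha, c, hc, hac⟩ := hy
  rw [← Submodule.span_int_eq_addSubgroupClosure, Submodule.mem_toAddSubgroup,
    Submodule.mem_span_range_iff_exists_fun] at ha
  obtain ⟨lam, hl⟩ := ha
  have hc' : ∃ b : L, c = algebraMap L K (b ^ p - b) := by
    refine AddSubgroup.closure_induction (p := fun c _ => ∃ b : L, c =
      algebraMap L K (b ^ p - b)) ?_ ?_ ?_ ?_ hc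
    · rintro _ ⟨b, rfl⟩
      exact ⟨b, rfl⟩
    · refine ⟨0, ?_⟩
      rw [zero_pow (Fact.out : p.Prime).ne_zero, sub_zero, map_zero]
    · rintro _ _ _ _ ⟨b, rfl⟩ ⟨b', rfl⟩
      refine ⟨b + b', ?_⟩
      rw [← map_add]
      congr 1
      rw [add_pow_char]
      ring
    · rintro _ _ ⟨b, rfl⟩
      refine ⟨-b, ?_⟩
      rw [← map_neg]
      congr 1
      have h3 : (-b) ^ p = -(b ^ p) := by
        have h4 : ((0 : L) - b) ^ p = 0 ^ p - b ^ p := by rw [sub_pow_char]
        rw [zero_sub, zero_pow (Fact.out : p.Prime).ne_zero, zero_sub] at h4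
        exact h4
      rw [h3]
      ring
  obtain ⟨b, hb⟩ := hc'
  refine ⟨lam, b, ?_⟩
  rw [← hac, ← hl, hb, map_add, map_sum]
  congr 1
  refine Finset.sum_congr rfl fun i _ => ?_
  rw [zsmul_eq_mul, zsmul_eq_mul, map_mul, map_intCast]

/-- Models of mixed extensions, lying over the given model. -/
theorem model_mixed {T0 I0 ι ν G : Type} [Finite T0] [Fintype I0] [Fintype ι] [Fintype ν]
    (M : LM (⊥ : Subalgebra k L) ⊤ T0 I0) {f : ι → L} {n : ι → I0 → ℤ} {a h : T0 → ι → L}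
    (hN : NBW p M f n a h) {F : ν → L} {m : ν → I0 → ℤ} {b c : T0 → ν → L}
    (hc : ∀ t u, c t u ∈ M.A t)
    (hF : ∀ t u, F u = b t u ^ p + (∏ i, M.x t i ^ m u i) * c t u)
    (hln : ∀ t (κ : Type u) [Field κ] [Algebra k κ] (ψ : M.A t →ₐ[k] κ) (u : ν),
      ∃ v : LT ψ (M.x t), om v (m u) (hc t u) ≠ 0 ∧ (∀ l, l ≠ u → om v (m l) (hc t l) = 0) ∧
        ∀ j, Pole M t ψ (n j) → om v (n j) (hN.hA t j) = 0)
    {g : G → L} {Γ : G → I0 → ℤ} (hG : Fn M g Γ) (hR : Frc M) {r q : ℕ} (z : Fin r → K)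
    (hz : ∀ j, z j ^ p - z j ∈ AddSubgroup.closure
      ((Set.range fun t => algebraMap L K (f t)) ∪
        Set.range fun b : L => algebraMap L K (b ^ p - b)))
    (w : Fin q → K)
    (hw : (∀ l, ∃ (lam : ν → k) (b : L),
        w l ^ p = algebraMap L K (∑ u, algebraMap k L (lam u) * F u + b ^ p)) ∨
      ((∀ u, ∃ i, g i = F u) ∧ (∀ u, F u ≠ 0) ∧ ∀ l, ∃ (e : ν → ℤ) (b : L), b ≠ 0 ∧
        w l ^ p = algebraMap L K ((∏ u, F u ^ e u) * b ^ p)))
    (hgen : IntermediateField.adjoin L (Set.range z ∪ Set.range w) = ⊤) :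
    ∃ (T I : Type) (_ : Finite T) (_ : Fintype I) (M' : LM (⊥ : Subalgebra k K) ⊤ T I)
      (Γ' : G → I → ℤ), Fn M' (fun b => algebraMap L K (g b)) Γ' ∧ Frc M' ∧
        Dm M.A (algebraMap L K) M' := by
  classical
  have hp : p.Prime := Fact.out
  have hcK : CharP K p := charP_of_injective_algebraMap (algebraMap k K).injective p
  have hcL : CharP L p := charP_of_injective_algebraMap (algebraMap k L).injective p
  let K1 := IntermediateField.adjoin L (Set.range z)
  have tK1 : IsScalarTower k K1 K := IsScalarTower.of_algebraMap_eq fun c => rfl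
  have hcK1 : CharP K1 p := charP_of_injective_algebraMap (algebraMap k K1).injective p
  -- the Artin-Schreier tower
  choose lam bz hlb using fun j => exists_coeff p f (hz j)
  let z1 : Fin r → K1 := fun j => ⟨z j, IntermediateField.subset_adjoin L _ ⟨j, rfl⟩⟩ -
    algebraMap L K1 (bz j)
  have hz1c : ∀ j, ((z1 j : K1) : K) = z j - algebraMap L K (bz j) := fun j => rfl
  have hz1 : ∀ j, z1 j ^ p - z1 j =
      ∑ i, zc p K1 ((lam j i : ℤ) : ZMod p) * algebraMap L K1 (f i) := by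
    intro j
    apply (algebraMap K1 K).injective
    have h1 : algebraMap K1 K (z1 j ^ p - z1 j) =
        (z j - algebraMap L K (bz j)) ^ p - (z j - algebraMap L K (bz j)) := by
      rw [map_sub, map_pow]
      rfl
    rw [h1, sub_pow_char, map_sum]
    have h2 : (z j ^ p - algebraMap L K (bz j) ^ p) - (z j - algebraMap L K (bz j)) =
        (z j ^ p - z j) - algebraMap L K ((bz j) ^ p - bz j) := by
      rw [map_sub, map_pow]
      ring
    rw [h2, hlb j, ← map_sub, add_sub_cancel_right, map_sum]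
    refine Finset.sum_congr rfl fun i _ => ?_
    rw [map_mul, alg_zc, zc_intCast, ← IsScalarTower.algebraMap_apply L K1 K, zsmul_eq_mul,
      map_mul, map_intCast]
  have hgen1 : IntermediateField.adjoin L (Set.range z1) = ⊤ := by
    apply IntermediateField.lift_injective K1
    rw [IntermediateField.lift_adjoin, IntermediateField.lift_top]
    apply le_antisymm
    · rw [IntermediateField.adjoin_le_iff]
      rintro _ ⟨_, ⟨j, rfl⟩, rfl⟩
      exact (z1 j).2
    · rw [IntermediateField.adjoin_le_iff]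
      rintro _ ⟨j, rfl⟩
      have h2 : z j = ((z1 j : K1) : K) + algebraMap L K (bz j) := by
        rw [hz1c]
        ring
      rw [h2]
      exact add_mem (IntermediateField.subset_adjoin L _ ⟨z1 j, ⟨j, rfl⟩, rfl⟩)
        (IntermediateField.algebraMap_mem _ _)
  obtain ⟨T, I, hT, hI, M1, π, Θ, N, a', h', Λ, R, Γ1, hS, -, -, -, hF1, hR1⟩ :=
    gta_tower (k := k) hN.n0 r L K1 (gta_init hN hG hR) z1
      (fun j i => ((lam j i : ℤ) : ZMod p)) hz1 hgen1
  have hNJ := nfj_of_ASt hS hc hF (fun t κ _ _ ψ u => by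
    obtain ⟨v, h1, h2, h3⟩ := hln t κ ψ u
    exact ⟨v, h1, h2, fun j _ hp => h3 j hp⟩)
  -- the generation
  have hgen2 : ∀ w' : Fin q → K, (∀ l, w l ∈ IntermediateField.adjoin K1 (Set.range w')) →
      IntermediateField.adjoin K1 (Set.range w') = ⊤ := by
    intro w' hw'
    rw [← IntermediateField.restrictScalars_eq_top_iff (K := L), eq_top_iff, ← hgen,
      IntermediateField.adjoin_le_iff]
    rintro y (⟨j, rfl⟩ | ⟨l, rfl⟩)
    · have h1 : z j ∈ K1 := IntermediateField.subset_adjoin L _ ⟨j, rfl⟩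
      exact IntermediateField.algebraMap_mem (IntermediateField.adjoin K1 (Set.range w'))
        (⟨z j, h1⟩ : K1)
    · exact hw' l
  have hdm : ∀ {T2 I2 : Type} (M2 : LM (⊥ : Subalgebra k K) ⊤ T2 I2),
      Dm M1.A (algebraMap K1 K) M2 → Dm M.A (algebraMap L K) M2 := by
    intro T2 I2 M2 hD t
    obtain ⟨s, hs⟩ := hD t
    refine ⟨π s, fun x hx => ?_⟩
    rw [IsScalarTower.algebraMap_apply L K1 K]
    exact hs _ (hS.ov.le s x hx)
  have hgK : (fun b => algebraMap K1 K (algebraMap L K1 (g b))) =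
      fun b => algebraMap L K (g b) :=
    funext fun b => (IsScalarTower.algebraMap_apply L K1 K (g b)).symm
  rcases hw with hw | ⟨hFg, hF0, hw⟩
  · choose lw bw hlw using hw
    let w' : Fin q → K := fun l => w l - algebraMap L K (bw l)
    obtain ⟨T2, I2, hT2, hI2, M2, Γ2, hF2, hR2, hD2⟩ := tower_add' p M1 K hNJ hF1 hR1 q w' lw (by
      intro l
      change (w l - algebraMap L K (bw l)) ^ p = _
      rw [sub_pow_char, hlw, map_add, map_pow, add_sub_cancel_right, map_sum, map_sum]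
      refine Finset.sum_congr rfl fun u _ => ?_
      rw [map_mul, map_mul, ← IsScalarTower.algebraMap_apply L K1 K,
        ← IsScalarTower.algebraMap_apply k L K, ← IsScalarTower.algebraMap_apply k K1 K])
      (hgen2 w' (by
        intro l
        have h2 : w l = w' l + algebraMap L K (bw l) := by
          change w l = w l - algebraMap L K (bw l) + algebraMap L K (bw l)
          ring
        rw [h2]
        refine add_mem (IntermediateField.subset_adjoin K1 _ ⟨l, rfl⟩) ?_
        rw [IsScalarTower.algebraMap_apply L K1 K]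
        exact IntermediateField.algebraMap_mem _ _))
    rw [hgK] at hF2
    exact ⟨T2, I2, hT2, hI2, M2, Γ2, hF2, hR2, hdm M2 hD2⟩
  · choose e bw hb0 hlw using hw
    have hF0K : ∀ u, algebraMap L K (F u) ≠ 0 := fun u =>
      (_root_.map_ne_zero (algebraMap L K)).2 (hF0 u)
    -- the correction
    let y : Fin q → L := fun l => (∏ u, F u ^ (e l u / (p : ℤ))) * bw l
    have hy0 : ∀ l, y l ≠ 0 := fun l =>
      mul_ne_zero (Finset.prod_ne_zero_iff.2 fun u _ => zpow_ne_zero _ (hF0 u)) (hb0 l)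
    let w' : Fin q → K := fun l => w l * (algebraMap L K (y l))⁻¹
    have hval : ∀ (e : ℤ), (((e : ZMod p).val : ℕ) : ℤ) = e % p := by
      intro e
      exact ZMod.val_intCast e
    have hyp : ∀ l, (∏ u, F u ^ e l u) * bw l ^ p =
        pw p F (fun u => ((e l u : ℤ) : ZMod p)) * y l ^ p := by
      intro l
      change _ = (∏ u, F u ^ (((e l u : ℤ) : ZMod p)).val) *
        ((∏ u, F u ^ (e l u / (p : ℤ))) * bw l) ^ p
      rw [mul_pow, ← mul_assoc, ← Finset.prod_pow, ← Finset.prod_mul_distrib]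
      congr 1
      refine Finset.prod_congr rfl fun u _ => ?_
      rw [← zpow_natCast, ← zpow_natCast (F u ^ (e l u / (p : ℤ))), ← zpow_mul,
        ← zpow_add₀ (hF0 u), hval]
      congr 1
      rw [mul_comm (e l u / (p : ℤ))]
      exact (Int.emod_add_mul_ediv _ _).symm
    obtain ⟨T2, I2, hT2, hI2, M2, Γ2, hF2, hR2, hD2⟩ := tower_mul' p M1 K hNJ hF1 hR1 (by
        intro u
        obtain ⟨i, hi⟩ := hFg u
        exact Submonoid.subset_closure ⟨i, congrArg (algebraMap L K1) hi⟩) (by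
        intro u
        exact (_root_.map_ne_zero (algebraMap L K1)).2 (hF0 u)) q w'
      (fun l u => ((e l u : ℤ) : ZMod p)) (by
        intro l
        change (w l * (algebraMap L K (y l))⁻¹) ^ p = _
        rw [mul_pow, inv_pow, ← map_pow, hlw, hyp, map_mul, mul_assoc,
          mul_inv_cancel₀ ((_root_.map_ne_zero (algebraMap L K)).2 (pow_ne_zero _ (hy0 l))),
          mul_one]
        unfold pw
        rw [map_prod, map_prod]
        refine Finset.prod_congr rfl fun u _ => ?_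
        rw [map_pow, map_pow, ← IsScalarTower.algebraMap_apply L K1 K])
      (hgen2 w' (by
        intro l
        have h2 : w l = w' l * algebraMap L K (y l) := by
          change w l = w l * (algebraMap L K (y l))⁻¹ * algebraMap L K (y l)
          rw [mul_assoc, inv_mul_cancel₀ ((_root_.map_ne_zero (algebraMap L K)).2 (hy0 l)),
            mul_one]
        rw [h2]
        refine mul_mem (IntermediateField.subset_adjoin K1 _ ⟨l, rfl⟩) ?_
        rw [IsScalarTower.algebraMap_apply L K1 K]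
        exact IntermediateField.algebraMap_mem _ _))
    rw [hgK] at hF2
    exact ⟨T2, I2, hT2, hI2, M2, Γ2, hF2, hR2, hdm M2 hD2⟩

end mixed

end Pool.Agent.H176.Mix
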