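import Pool.Agent.H176.Mix.AS
import Pool.Agent.TH188.WQ.Base

/-!
# Towers of purely inseparable extensions over a given model
-/

set_option autoImplicit false
set_option linter.unusedVariables false
set_option linter.unusedSectionVars false

universe u w

open Polynomial Pool.Agent.W558 Pool.Agent.TH188.WP
open Pool.Agent.TH188.WQ (Cp BD GT gt_init gt_tower hnf_add hpow_add hnf_mul hpow_mul wq_bun
  wq_ppr wq_pcut pw)

namespace Pool.Agent.H176.Mix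

section bd

variable {p : ℕ} {k L : Type u} [Field k] [Field L] [Algebra k L] {ι G : Type} [Fintype ι]
  {f : ι → L} {g : G → L} {T I : Type} [Finite T] [Fintype I]
  (M : LM (⊥ : Subalgebra k L) ⊤ T I) {n : ι → I → ℤ} {a h : T → ι → L} {Γ : G → I → ℤ}

theorem bd_add' (hN : NFJ p M f n a h) (hG : Fn M g Γ) (hR : Frc M) :
    ∃ (T0 I0 : Type) (_ : Finite T0) (_ : Fintype I0) (M0 : LM (⊥ : Subalgebra k L) ⊤ T0 I0)
      (n : ι → I0 → ℤ) (a h : T0 → ι → L) (Γ : G → I0 → ℤ) (hB : BD M0 n n h (fun _ _ => 1)),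
      (∀ t j, f j = a t j ^ p + (∏ i, M0.x t i ^ n j i) * h t j) ∧ Fn M0 g Γ ∧ Frc M0 ∧
      ∀ t', ∃ t, M.A t ≤ M0.A t' := by
  obtain ⟨T', I', iT, iI, M', π, Θ, hOv, hC⟩ := wd_ovp k L ⊥ ⊤ T I ι M n
  have hh : ∀ t' j, h (π t') j ∈ M'.A t' := fun t' j => hOv.le t' (hN.hA (π t') j)
  refine ⟨T', I', iT, iI, M', fun j i' => ∑ i, Θ i' i * n j i, fun t' j => a (π t') j,
    fun t' j => h (π t') j, _, ⟨hh, fun t' j => (M'.A t').one_mem, fun t' j l => hC j l t', ?_⟩,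
    ?_, hG.ov hOv, hR.ov hOv, fun t' => ⟨π t', hOv.le t'⟩⟩
  · intro t' κ _ _ φ' j
    obtain ⟨v, hv1, hv2⟩ := hN.ln (π t') κ (φ'.comp (Subalgebra.inclusion (hOv.le t'))) j
    obtain ⟨v', hw1, hw2⟩ := hOv.lt t' κ φ' v
    have h1 : ∀ l, om v' (fun i' => ∑ i, Θ i' i * n l i) (hh t' l) =
        om v (n l) (hN.hA (π t') l) := fun l =>
      om_ov hOv hw1 hw2 (n l) _ (fun _ => rfl) (hN.hA (π t') l)
    have h2 : φ' ⟨1, (M'.A t').one_mem⟩ = 1 := map_one φ'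
    refine ⟨v', ?_, ?_⟩
    · rw [h1, h2, one_mul]
      exact hv1
    · intro l hl
      rw [h1, h2, one_mul]
      exact hv2 l hl
  · intro t' j
    rw [hN.eq (π t') j, prod_ov hOv]

theorem bd_mul' [Fact p.Prime] [CharP k p] (hN : NFJ p M f n a h) (hG : Fn M g Γ) (hR : Frc M)
    (hf : ∀ i, f i ∈ Submonoid.closure (Set.range g)) :
    ∃ (T0 I0 : Type) (_ : Finite T0) (_ : Fintype I0) (M0 : LM (⊥ : Subalgebra k L) ⊤ T0 I0)
      (n e : ι → I0 → ℤ) (a h s u : T0 → ι → L) (ν : ι → I0 → ℤ) (Γ : G → I0 → ℤ)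
      (hB : BD M0 n e h s),
      (∀ t j, f j = a t j ^ p + (∏ i, M0.x t i ^ n j i) * h t j) ∧
      (∀ t j, u t j ≠ 0) ∧ (∀ t j, u t j ∈ M0.A t) ∧ (∀ t j, (u t j)⁻¹ ∈ M0.A t) ∧
      (∀ t j, f j = u t j * ∏ i, M0.x t i ^ ν j i) ∧ (∀ t j, s t j = (u t j)⁻¹) ∧
      (∀ j i, e j i = n j i - ν j i) ∧ (∀ t j i, 0 ≤ e j i ∨ (M0.x t i)⁻¹ ∈ M0.A t) ∧
      Fn M0 g Γ ∧ Frc M0 ∧ ∀ t', ∃ t, M.A t ≤ M0.A t' := by
  have hp : p.Prime := Fact.out
  choose ν hν using fun i => isFn_of_closure hG (hf i)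
  choose u u0 uA uA' hu using hν
  obtain ⟨T', I', iT, iI, M', π, Θ, hOv, hC⟩ := wd_ovp k L ⊥ ⊤ T I (Option ι) M
    (fun o => o.elim 0 (fun i l => n i l - ν i l))
  have hM' : Frc M' := hR.ov hOv
  have hh : ∀ t' j, h (π t') j ∈ M'.A t' := fun t' j => hOv.le t' (hN.hA (π t') j)
  let n' : ι → I' → ℤ := fun j i' => ∑ i, Θ i' i * n j i
  let ν' : ι → I' → ℤ := fun j i' => ∑ i, Θ i' i * ν j i
  let e' : ι → I' → ℤ := fun j i' => ∑ i, Θ i' i * (n j i - ν j i)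
  have he' : ∀ j i', e' j i' = n' j i' - ν' j i' := by
    intro j i'
    change ∑ i, Θ i' i * (n j i - ν j i) = ∑ i, Θ i' i * n j i - ∑ i, Θ i' i * ν j i
    rw [← Finset.sum_sub_distrib]
    exact Finset.sum_congr rfl fun i _ => mul_sub _ _ _
  have hform : ∀ t' (κ : Type u) [Field κ] [Algebra k κ] (φ' : M'.A t' →ₐ[k] κ) (j : ι),
      ∃ v' : LT φ' (M'.x t'), om v' (n' j) (hh t' j) ≠ 0 ∧
        ∀ l, l ≠ j → om v' (n' l) (hh t' l) = 0 := by
    intro t' κ _ _ φ' j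
    obtain ⟨v, hv1, hv2⟩ := hN.ln (π t') κ (φ'.comp (Subalgebra.inclusion (hOv.le t'))) j
    obtain ⟨v', hw1, hw2⟩ := hOv.lt t' κ φ' v
    have h1 : ∀ l, om v' (n' l) (hh t' l) = om v (n l) (hN.hA (π t') l) := fun l =>
      om_ov hOv hw1 hw2 (n l) _ (fun _ => rfl) (hN.hA (π t') l)
    refine ⟨v', ?_, ?_⟩
    · rw [h1]; exact hv1
    · intro l hl
      rw [h1]; exact hv2 l hl
  have heq : ∀ t' j, f j = a (π t') j ^ p + (∏ i, M'.x t' i ^ n' j i) * h (π t') j := by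
    intro t' j
    rw [hN.eq (π t') j, prod_ov hOv]
  have heq' : ∀ t' j, f j = u j (π t') * ∏ i, M'.x t' i ^ ν' j i := by
    intro t' j
    rw [hu j (π t'), prod_ov hOv]
  have hUA : ∀ t' j, u j (π t') ∈ M'.A t' := fun t' j => hOv.le t' (uA j (π t'))
  have hUA' : ∀ t' j, (u j (π t'))⁻¹ ∈ M'.A t' := fun t' j => hOv.le t' (uA' j (π t'))
  have hn' : ∀ j, n' j = ν' j + e' j := fun j => funext fun i => by
    rw [Pi.add_apply, he']; ring
  have he0 : ∀ t' j i, 0 ≤ e' j i ∨ (M'.x t' i)⁻¹ ∈ M'.A t' := by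
    intro t' j
    have := M'.sm t'
    refine E_nonneg p (fun z hz => root_mem' wd_norm hM' hp.pos t' hz) (M'.snc t') (M'.xA t')
      (M'.x0 t') (ν' j) (e' j) ⟨_, hUA t' j⟩ ⟨_, hh t' j⟩ (a (π t') j) ?_ ?_ ?_
    · rw [← hn']
      change mo (M'.x t') (ν' j) * u j (π t') = a (π t') j ^ p +
        mo (M'.x t') (n' j) * h (π t') j
      rw [mul_comm]
      exact (heq' t' j).symm.trans (heq t' j)
    · intro κ _ _ φ'
      obtain ⟨v', hv, -⟩ := hform t' κ φ' j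
      rw [← hn']
      exact ⟨v', hv⟩
    · have h1 := hC none (some j) t'
      simp only [Option.elim_none, Option.elim_some, Pi.zero_apply, mul_zero,
        Finset.sum_const_zero] at h1
      exact h1
  refine ⟨T', I', iT, iI, M', n', e', fun t' j => a (π t') j, fun t' j => h (π t') j,
    fun t' j => (u j (π t'))⁻¹, fun t' j => u j (π t'), ν', _,
    ⟨hh, hUA', fun t' j l => hC (some j) (some l) t', ?_⟩, heq, fun t' j => u0 j (π t'), hUA,
    hUA', heq', fun _ _ => rfl, he', he0, hG.ov hOv, hM', fun t' => ⟨π t', hOv.le t'⟩⟩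
  intro t' κ _ _ φ' j
  obtain ⟨v', hv1, hv2⟩ := hform t' κ φ' j
  refine ⟨v', mul_ne_zero ?_ hv1, fun l hl => by rw [hv2 l hl, mul_zero]⟩
  intro h0
  have h1 : φ' ⟨_, hUA' t' j⟩ * φ' ⟨_, hUA t' j⟩ = 1 := by
    rw [← map_mul, ← map_one φ']
    congr 1
    exact Subtype.ext (inv_mul_cancel₀ (u0 j (π t')))
  rw [h0, zero_mul] at h1
  exact zero_ne_one h1

end bd

section tower

variable (p : ℕ) [Fact p.Prime] {k L : Type u} [Field k] [PerfectField k] [CharP k p] [Field L]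
  [Algebra k L] {ι G : Type} [Fintype ι] {f : ι → L} {g : G → L}
  {T I : Type} [Finite T] [Fintype I]
  (M : LM (⊥ : Subalgebra k L) ⊤ T I) {n : ι → I → ℤ} {a h : T → ι → L} {Γ : G → I → ℤ}
  (K : Type u) [Field K] [Algebra k K] [Algebra L K] [IsScalarTower k L K]

/-- Models of the extension generated by the `p`-th roots of linear combinations. -/
theorem tower_add' (hN : NFJ p M f n a h) (hG : Fn M g Γ) (hR : Frc M) (r : ℕ) (w : Fin r → K)
    (lam : Fin r → ι → k)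
    (hw : ∀ j, w j ^ p = algebraMap L K (∑ l, algebraMap k L (lam j l) * f l))
    (hgen : IntermediateField.adjoin L (Set.range w) = ⊤) :
    ∃ (T' I' : Type) (_ : Finite T') (_ : Fintype I') (M' : LM (⊥ : Subalgebra k K) ⊤ T' I')
      (Γ' : G → I' → ℤ), Fn M' (fun b => algebraMap L K (g b)) Γ' ∧ Frc M' ∧
      Pool.Agent.TH214.Dm M.A (algebraMap L K) M' := by
  have hp : p.Prime := Fact.out
  obtain ⟨T0, I0, hT0, hI0, M0, n, a, h, Γ, hB, heq, hG, hR, hle⟩ := bd_add' M hN hG hR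
  have h0 : GT (RingHom.id k) p hB (fun lam : ι → k => ∑ j, algebraMap k L (lam j) * f j) g L := by
    refine gt_init _ p hB _ ⟨0, ?_⟩ g Γ hG hR
    rw [zero_pow hp.ne_zero]
    symm
    refine Finset.sum_eq_zero fun j _ => ?_
    rw [Pi.zero_apply, map_zero, zero_mul]
  obtain ⟨T1, I1, hT1, hI1, M1, π, Θ, Λ, Γ', hS, -, hF, hFr⟩ :=
    gt_tower wq_bun wq_ppr wq_pcut (hnf_add p hB f a heq) (hpow_add p f) r L K h0 w lam hw hgen
  refine ⟨T1, I1, hT1, hI1, M1, Γ', hF, hFr, ?_⟩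
  intro t
  obtain ⟨s, hs⟩ := hle (π t)
  exact ⟨s, fun x hx => hS.ov.le t x (hs hx)⟩

/-- Models of the extension generated by the `p`-th roots of products. -/
theorem tower_mul' (hN : NFJ p M f n a h) (hG : Fn M g Γ) (hR : Frc M)
    (hf : ∀ i, f i ∈ Submonoid.closure (Set.range g))
    (hf0 : ∀ j, f j ≠ 0) (r : ℕ) (w : Fin r → K) (lam : Fin r → ι → ZMod p)
    (hw : ∀ j, w j ^ p = algebraMap L K (pw p f (lam j)))
    (hgen : IntermediateField.adjoin L (Set.range w) = ⊤) :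
    ∃ (T' I' : Type) (_ : Finite T') (_ : Fintype I') (M' : LM (⊥ : Subalgebra k K) ⊤ T' I')
      (Γ' : G → I' → ℤ), Fn M' (fun b => algebraMap L K (g b)) Γ' ∧ Frc M' ∧
      Pool.Agent.TH214.Dm M.A (algebraMap L K) M' := by
  have hp : p.Prime := Fact.out
  obtain ⟨T0, I0, hT0, hI0, M0, n, e, a, h, s, u, ν, Γ, hB, heq, hu0, huA, huA', hu, hs, he, he0,
    hG, hR, hle⟩ := bd_mul' M hN hG hR hf
  have h0 : GT (ZMod.castHom (dvd_refl p) k) p hB (pw p f) g L := by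
    refine gt_init _ p hB _ ⟨1, ?_⟩ g Γ hG hR
    unfold pw
    rw [one_pow]
    symm
    refine Finset.prod_eq_one fun j _ => ?_
    rw [Pi.zero_apply, ZMod.val_zero, pow_zero]
  obtain ⟨T1, I1, hT1, hI1, M1, π, Θ, Λ, Γ', hS, -, hF, hFr⟩ :=
    gt_tower wq_bun wq_ppr wq_pcut (hnf_mul wd_norm p hB f a u ν heq hu0 huA huA' hu hs he he0)
      (hpow_mul p hf0) r L K h0 w lam hw hgen
  refine ⟨T1, I1, hT1, hI1, M1, Γ', hF, hFr, ?_⟩
  intro t
  obtain ⟨s, hs⟩ := hle (π t)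
  exact ⟨s, fun x hx => hS.ov.le t x (hs hx)⟩

end tower

section pas

variable {k L : Type u} [Field k] [Field L] [Algebra k L] {T0 I0 : Type} [Fintype I0] {ι : Type}
  {M0 : LM (⊥ : Subalgebra k L) ⊤ T0 I0}
  {n : ι → I0 → ℤ} {h : T0 → ι → L} {hA : ∀ t j, h t j ∈ M0.A t} {J : Set ι}
  {K : Type u} [Field K] [Algebra k K] [Algebra L K] [IsScalarTower k L K] {T I : Type}
  [Fintype I] {M : LM (⊥ : Subalgebra k K) ⊤ T I} {π : T → T0} {Θ : I → I0 → ℤ}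

/-- The normal form of the functions whose `p`-th roots are considered, on the model of the
Artin-Schreier extension. -/
theorem nfj_of_ASt (hS : ASt n h hA J M π Θ) {p : ℕ} {ν : Type} {F : ν → L} {m : ν → I0 → ℤ}
    {b c : T0 → ν → L} (hc : ∀ t u, c t u ∈ M0.A t)
    (hF : ∀ t u, F u = b t u ^ p + (∏ i, M0.x t i ^ m u i) * c t u)
    (hln : ∀ t (κ : Type u) [Field κ] [Algebra k κ] (ψ : M0.A t →ₐ[k] κ) (u : ν),
      ∃ v : LT ψ (M0.x t), om v (m u) (hc t u) ≠ 0 ∧ (∀ l, l ≠ u → om v (m l) (hc t l) = 0) ∧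
        ∀ j ∈ J, Pole M0 t ψ (n j) → om v (n j) (hA t j) = 0) :
    NFJ p M (fun u => algebraMap L K (F u)) (fun u i => ∑ i0, Θ i i0 * m u i0)
      (fun t u => algebraMap L K (b (π t) u)) (fun t u => algebraMap L K (c (π t) u)) := by
  refine ⟨fun t u => hS.ov.le t _ (hc (π t) u), ?_, ?_⟩
  · intro t u
    change algebraMap L K (F u) = _
    rw [hF (π t) u, map_add, map_pow, map_mul,
      ← Pool.Agent.W32.WT.mon_pull (ovr_to hS.ov) t (m u)]
  · intro t κ _ _ φ u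
    let ψ : M0.A (π t) →ₐ[k] κ := φ.comp (Pool.Agent.TH188.WQ.ci (hS.ov.le t))
    obtain ⟨v0, h1, h2, h3⟩ := hln (π t) κ ψ u
    obtain ⟨v, hv⟩ := hS.lf t κ φ ψ (fun a ha => rfl) v0 h3
    refine ⟨v, ?_, ?_⟩
    · rw [hv.om (m u) (hc (π t) u) (hS.ov.le t _ (hc (π t) u))]
      exact h1
    · intro l hl
      rw [hv.om (m l) (hc (π t) l) (hS.ov.le t _ (hc (π t) l))]
      exact h2 l hl

end pas

end Pool.Agent.H176.Mix
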