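import Pool.Agent.H176.Mix.Tow

/-!
# Mixed towers
-/

set_option autoImplicit false
set_option linter.unusedVariables false
set_option linter.unusedSectionVars false

universe u

open Polynomial AlgebraicGeometry CategoryTheory Pool.Agent.W558 Pool.Agent.TH214
open Pool.Agent.TH188.WQ (pw)

namespace Pool.Agent.H176.Mix

section mixed

variable (p : ℕ) [Fact p.Prime] {k L K : Type u} [Field k] [PerfectField k] [CharP k p] [Field L]
  [Field K] [Algebra k L] [Algebra k K] [Algebra L K] [IsScalarTower k L K]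


/-- The condition on the towers. -/
def IsTow (p : ℕ) {T0 I0 ι : Type} [Fintype I0] (M : LM (⊥ : Subalgebra k L) ⊤ T0 I0)
    (f : ι → L) (n : ι → I0 → ℤ) {r : ℕ} (z : Fin r → K) : Prop :=
  ∃ (σ : Fin r → ι) (gg : Fin r → K), Function.Injective σ ∧
    (∀ i, z i ^ p - z i = algebraMap L K (f (σ i)) + gg i) ∧
    (∀ i, gg i ∈ IntermediateField.adjoin L (z '' {l | l < i})) ∧
    ∀ i t0, ∃ b ∈ IntermediateField.adjoin L (z '' {l | l < i}), Small M (n (σ i)) t0
      ((gg i - (b ^ p - b)) * algebraMap L K (∏ l, M.x t0 l ^ (-n (σ i) l)))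

/-- Models of towers with `p`-th roots, lying over the given model. -/
theorem model_tow {T0 I0 ι ν G : Type} [Finite T0] [Fintype I0] [Fintype ι] [Fintype ν]
    (M : LM (⊥ : Subalgebra k L) ⊤ T0 I0) {f : ι → L} {n : ι → I0 → ℤ} {a h : T0 → ι → L}
    (hN : NBW p M f n a h) {F : ν → L} {m : ν → I0 → ℤ} {b c : T0 → ν → L}
    (hc : ∀ t u, c t u ∈ M.A t)
    (hF : ∀ t u, F u = b t u ^ p + (∏ i, M.x t i ^ m u i) * c t u)
    (hln : ∀ t (κ : Type u) [Field κ] [Algebra k κ] (ψ : M.A t →ₐ[k] κ) (u : ν),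
      ∃ v : LT ψ (M.x t), om v (m u) (hc t u) ≠ 0 ∧ (∀ l, l ≠ u → om v (m l) (hc t l) = 0) ∧
        ∀ j, Pole M t ψ (n j) → om v (n j) (hN.hA t j) = 0)
    {g : G → L} {Γ : G → I0 → ℤ} (hG : Fn M g Γ) (hR : Frc M) {r q : ℕ} (z : Fin r → K)
    (hz : IsTow p M f n z)
    (w : Fin q → K)
    (hw : (∀ l, ∃ (lam : ν → k) (b : L),
        w l ^ p = algebraMap L K (∑ u, algebraMap k L (lam u) * F u + b ^ p)) ∨
      ((∀ u, ∃ i, g i = F u) ∧ (∀ u, F u ≠ 0) ∧ ∀ l, ∃ (e : ν → ℤ) (b : L), b ≠ 0 ∧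
        w l ^ p = algebraMap L K ((∏ u, F u ^ e u) * b ^ p)))
    (hgen : IntermediateField.adjoin L (Set.range z ∪ Set.range w) = ⊤) :
    ∃ (T I : Type) (_ : Finite T) (_ : Fintype I) (M' : LM (⊥ : Subalgebra k K) ⊤ T I)
      (Γ' : G → I → ℤ), Fn M' (fun b => algebraMap L K (g b)) Γ' ∧ Frc M' ∧
        Dm M.A (algebraMap L K) M' := by
  classical
  obtain ⟨σ, gg, hσ, hz, hg, hsm⟩ := hz
  have hp : p.Prime := Fact.out
  have hcK : CharP K p := charP_of_injective_algebraMap (algebraMap k K).injective p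
  have hcL : CharP L p := charP_of_injective_algebraMap (algebraMap k L).injective p
  let K1 := IntermediateField.adjoin L (Set.range z)
  have tK1 : IsScalarTower k K1 K := IsScalarTower.of_algebraMap_eq fun c => rfl
  have hcK1 : CharP K1 p := charP_of_injective_algebraMap (algebraMap k K1).injective p
  have hN1 : NBW p M (fun i => f (σ i)) (fun i => n (σ i)) (fun t i => a t (σ i))
      (fun t i => h t (σ i)) := by
    refine ⟨fun i => hN.n0 (σ i), fun t i => hN.hA t (σ i), fun t i => hN.eq t (σ i), ?_⟩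
    intro t κ _ _ φ j hj
    obtain ⟨v, h1, h2⟩ := hN.ln t κ φ (σ j) hj
    exact ⟨v, h1, fun l hl hp => h2 (σ l) (fun h => hl (hσ h)) hp⟩
  have h1 := gtb_tower hN1 hG hR z gg hz hg hsm r le_rfl
  have h2 : z '' {l : Fin r | l.val < r} = Set.range z := by
    rw [← Set.image_univ]
    congr 1
    ext l
    simp
  rw [h2] at h1
  have h3 : GTB (fun i => n (σ i)) (fun t i => h t (σ i)) hN1.hA {l : Fin r | l.val < r} g K1 := h1
  obtain ⟨T, I, hT, hI, M1, π, Θ, Γ1, hS, hF1, hR1⟩ := h3
  have hNJ := nfj_of_ASt hS hc hF (fun t κ _ _ ψ u => by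
    obtain ⟨v, h1, h2, h3⟩ := hln t κ ψ u
    exact ⟨v, h1, h2, fun j _ hp => h3 (σ j) hp⟩)
  -- the generation
  have hgen2 : ∀ w' : Fin q → K, (∀ l, w l ∈ IntermediateField.adjoin K1 (Set.range w')) →
      IntermediateField.adjoin K1 (Set.range w') = ⊤ := by
    intro w' hw'
    rw [← IntermediateField.restrictScalars_eq_top_iff (K := L), eq_top_iff, ← hgen,
      IntermediateField.adjoin_le_iff]
    rintro y (⟨j, rfl⟩ | ⟨l, rfl⟩)
    · have h1 : z j ∈ K1 := IntermediateField.subset_adjoin L _ ⟨j, rfl⟩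
      exact IntermediateField.algebraMap_mem (IntermediateField.adjoin K1 (Set.range w'))
        (⟨z j, h1⟩ : K1)
    · exact hw' l
  have hdm : ∀ {T2 I2 : Type} (M2 : LM (⊥ : Subalgebra k K) ⊤ T2 I2),
      Dm M1.A (algebraMap K1 K) M2 → Dm M.A (algebraMap L K) M2 := by
    intro T2 I2 M2 hD t
    obtain ⟨s, hs⟩ := hD t
    refine ⟨π s, fun x hx => ?_⟩
    rw [IsScalarTower.algebraMap_apply L K1 K]
    exact hs _ (hS.ov.le s x hx)
  have hgK : (fun b => algebraMap K1 K (algebraMap L K1 (g b))) =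
      fun b => algebraMap L K (g b) :=
    funext fun b => (IsScalarTower.algebraMap_apply L K1 K (g b)).symm
  rcases hw with hw | ⟨hFg, hF0, hw⟩
  · choose lw bw hlw using hw
    let w' : Fin q → K := fun l => w l - algebraMap L K (bw l)
    obtain ⟨T2, I2, hT2, hI2, M2, Γ2, hF2, hR2, hD2⟩ := tower_add' p M1 K hNJ hF1 hR1 q w' lw (by
      intro l
      change (w l - algebraMap L K (bw l)) ^ p = _
      rw [sub_pow_char, hlw, map_add, map_pow, add_sub_cancel_right, map_sum, map_sum]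
      refine Finset.sum_congr rfl fun u _ => ?_
      rw [map_mul, map_mul, ← IsScalarTower.algebraMap_apply L K1 K,
        ← IsScalarTower.algebraMap_apply k L K, ← IsScalarTower.algebraMap_apply k K1 K])
      (hgen2 w' (by
        intro l
        have h2 : w l = w' l + algebraMap L K (bw l) := by
          change w l = w l - algebraMap L K (bw l) + algebraMap L K (bw l)
          ring
        rw [h2]
        refine add_mem (IntermediateField.subset_adjoin K1 _ ⟨l, rfl⟩) ?_
        rw [IsScalarTower.algebraMap_apply L K1 K]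
        exact IntermediateField.algebraMap_mem _ _))
    rw [hgK] at hF2
    exact ⟨T2, I2, hT2, hI2, M2, Γ2, hF2, hR2, hdm M2 hD2⟩
  · choose e bw hb0 hlw using hw
    have hF0K : ∀ u, algebraMap L K (F u) ≠ 0 := fun u =>
      (_root_.map_ne_zero (algebraMap L K)).2 (hF0 u)
    -- the correction
    let y : Fin q → L := fun l => (∏ u, F u ^ (e l u / (p : ℤ))) * bw l
    have hy0 : ∀ l, y l ≠ 0 := fun l =>
      mul_ne_zero (Finset.prod_ne_zero_iff.2 fun u _ => zpow_ne_zero _ (hF0 u)) (hb0 l)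
    let w' : Fin q → K := fun l => w l * (algebraMap L K (y l))⁻¹
    have hval : ∀ (e : ℤ), (((e : ZMod p).val : ℕ) : ℤ) = e % p := by
      intro e
      exact ZMod.val_intCast e
    have hyp : ∀ l, (∏ u, F u ^ e l u) * bw l ^ p =
        pw p F (fun u => ((e l u : ℤ) : ZMod p)) * y l ^ p := by
      intro l
      change _ = (∏ u, F u ^ (((e l u : ℤ) : ZMod p)).val) *
        ((∏ u, F u ^ (e l u / (p : ℤ))) * bw l) ^ p
      rw [mul_pow, ← mul_assoc, ← Finset.prod_pow, ← Finset.prod_mul_distrib]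
      congr 1
      refine Finset.prod_congr rfl fun u _ => ?_
      rw [← zpow_natCast, ← zpow_natCast (F u ^ (e l u / (p : ℤ))), ← zpow_mul,
        ← zpow_add₀ (hF0 u), hval]
      congr 1
      rw [mul_comm (e l u / (p : ℤ))]
      exact (Int.emod_add_mul_ediv _ _).symm
    obtain ⟨T2, I2, hT2, hI2, M2, Γ2, hF2, hR2, hD2⟩ := tower_mul' p M1 K hNJ hF1 hR1 (by
        intro u
        obtain ⟨i, hi⟩ := hFg u
        exact Submonoid.subset_closure ⟨i, congrArg (algebraMap L K1) hi⟩) (by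
        intro u
        exact (_root_.map_ne_zero (algebraMap L K1)).2 (hF0 u)) q w'
      (fun l u => ((e l u : ℤ) : ZMod p)) (by
        intro l
        change (w l * (algebraMap L K (y l))⁻¹) ^ p = _
        rw [mul_pow, inv_pow, ← map_pow, hlw, hyp, map_mul, mul_assoc,
          mul_inv_cancel₀ ((_root_.map_ne_zero (algebraMap L K)).2 (pow_ne_zero _ (hy0 l))),
          mul_one]
        unfold pw
        rw [map_prod, map_prod]
        refine Finset.prod_congr rfl fun u _ => ?_
        rw [map_pow, map_pow, ← IsScalarTower.algebraMap_apply L K1 K])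
      (hgen2 w' (by
        intro l
        have h2 : w l = w' l * algebraMap L K (y l) := by
          change w l = w l * (algebraMap L K (y l))⁻¹ * algebraMap L K (y l)
          rw [mul_assoc, inv_mul_cancel₀ ((_root_.map_ne_zero (algebraMap L K)).2 (hy0 l)),
            mul_one]
        rw [h2]
        refine mul_mem (IntermediateField.subset_adjoin K1 _ ⟨l, rfl⟩) ?_
        rw [IsScalarTower.algebraMap_apply L K1 K]
        exact IntermediateField.algebraMap_mem _ _))
    rw [hgK] at hF2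
    exact ⟨T2, I2, hT2, hI2, M2, Γ2, hF2, hR2, hdm M2 hD2⟩

/-- The two kinds of extensions, with roots modulo powers of elements of the separable part. -/
theorem model_mt {T0 I0 ι ν G : Type} [Finite T0] [Fintype I0] [Fintype ι] [Fintype ν]
    (M : LM (⊥ : Subalgebra k L) ⊤ T0 I0) {f : ι → L} {n : ι → I0 → ℤ} {a h : T0 → ι → L}
    (hN : NBW p M f n a h) {F : ν → L} {m : ν → I0 → ℤ} {b c : T0 → ν → L}
    (hc : ∀ t u, c t u ∈ M.A t)
    (hF : ∀ t u, F u = b t u ^ p + (∏ i, M.x t i ^ m u i) * c t u)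
    (hln : ∀ t (κ : Type u) [Field κ] [Algebra k κ] (ψ : M.A t →ₐ[k] κ) (u : ν),
      ∃ v : LT ψ (M.x t), om v (m u) (hc t u) ≠ 0 ∧ (∀ l, l ≠ u → om v (m l) (hc t l) = 0) ∧
        ∀ j, Pole M t ψ (n j) → om v (n j) (hN.hA t j) = 0)
    {g : G → L} {Γ : G → I0 → ℤ} (hG : Fn M g Γ) (hR : Frc M) {r q : ℕ} (z : Fin r → K)
    (hz : (∀ j, z j ^ p - z j ∈ AddSubgroup.closure
      ((Set.range fun t => algebraMap L K (f t)) ∪
        Set.range fun b : L => algebraMap L K (b ^ p - b))) ∨ IsTow p M f n z)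
    (w : Fin q → K)
    (hw : (∀ l, ∃ lam : ν → k, ∃ b ∈ IntermediateField.adjoin L (Set.range z),
        w l ^ p = algebraMap L K (∑ u, algebraMap k L (lam u) * F u) + b ^ p) ∨
      ((∀ u, ∃ i, g i = F u) ∧ (∀ u, F u ≠ 0) ∧ ∀ l, ∃ e : ν → ℤ,
        ∃ b ∈ IntermediateField.adjoin L (Set.range z), b ≠ 0 ∧
        w l ^ p = algebraMap L K (∏ u, F u ^ e u) * b ^ p))
    (hgen : IntermediateField.adjoin L (Set.range z ∪ Set.range w) = ⊤) :
    ∃ (T I : Type) (_ : Finite T) (_ : Fintype I) (M' : LM (⊥ : Subalgebra k K) ⊤ T I)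
      (Γ' : G → I → ℤ), Fn M' (fun b => algebraMap L K (g b)) Γ' ∧ Frc M' ∧
        Dm M.A (algebraMap L K) M' := by
  classical
  have hp : p.Prime := Fact.out
  have hcK : CharP K p := charP_of_injective_algebraMap (algebraMap k K).injective p
  have hcL : CharP L p := charP_of_injective_algebraMap (algebraMap k L).injective p
  have hgen2 : ∀ w' : Fin q → K,
      (∀ l, w l ∈ IntermediateField.adjoin L (Set.range z ∪ Set.range w')) →
      IntermediateField.adjoin L (Set.range z ∪ Set.range w') = ⊤ := by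
    intro w' hw'
    rw [eq_top_iff, ← hgen, IntermediateField.adjoin_le_iff]
    rintro y (⟨j, rfl⟩ | ⟨l, rfl⟩)
    · exact IntermediateField.subset_adjoin L _ (Or.inl ⟨j, rfl⟩)
    · exact hw' l
  have hle : ∀ w' : Fin q → K, IntermediateField.adjoin L (Set.range z) ≤
      IntermediateField.adjoin L (Set.range z ∪ Set.range w') := fun w' =>
    IntermediateField.adjoin.mono L _ _ Set.subset_union_left
  obtain ⟨w', hw', hgen'⟩ : ∃ w' : Fin q → K, ((∀ l, ∃ (lam : ν → k) (b : L),
        w' l ^ p = algebraMap L K (∑ u, algebraMap k L (lam u) * F u + b ^ p)) ∨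
      ((∀ u, ∃ i, g i = F u) ∧ (∀ u, F u ≠ 0) ∧ ∀ l, ∃ (e : ν → ℤ) (b : L), b ≠ 0 ∧
        w' l ^ p = algebraMap L K ((∏ u, F u ^ e u) * b ^ p))) ∧
      IntermediateField.adjoin L (Set.range z ∪ Set.range w') = ⊤ := by
    rcases hw with hw | ⟨hFg, hF0, hw⟩
    · choose lam b hb hlam using hw
      refine ⟨fun l => w l - b l, Or.inl fun l => ⟨lam l, 0, ?_⟩, hgen2 _ fun l => ?_⟩
      · rw [sub_pow_char, hlam, add_sub_cancel_right, zero_pow hp.ne_zero, add_zero]
      · have h1 := add_mem (IntermediateField.subset_adjoin L (Set.range z ∪ Set.range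
          fun l => w l - b l) (Or.inr ⟨l, rfl⟩)) (hle (fun l => w l - b l) (hb l))
        rwa [sub_add_cancel] at h1
    · choose e b hb hb0 he using hw
      refine ⟨fun l => w l * (b l)⁻¹, Or.inr ⟨hFg, hF0, fun l => ⟨e l, 1, one_ne_zero, ?_⟩⟩,
        hgen2 _ fun l => ?_⟩
      · rw [mul_pow, inv_pow, he, mul_assoc, mul_inv_cancel₀ (pow_ne_zero _ (hb0 l)), mul_one,
          one_pow, mul_one]
      · have h1 := mul_mem (IntermediateField.subset_adjoin L (Set.range z ∪ Set.range
          fun l => w l * (b l)⁻¹) (Or.inr ⟨l, rfl⟩)) (hle (fun l => w l * (b l)⁻¹) (hb l))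
        rwa [mul_assoc, inv_mul_cancel₀ (hb0 l), mul_one] at h1
  rcases hz with hz | hz
  · exact model_mixed p M hN hc hF hln hG hR z hz w' hw' hgen'
  · exact model_tow p M hN hc hF hln hG hR z hz w' hw' hgen'

end mixed

end Pool.Agent.H176.Mix
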