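import Pool.Agent.TH188.WQ.Tower
import Pool.Agent.TH214.Dom
import Pool.Agent.W32.WT.Nxt

/-!
# Artin-Schreier towers over a model: lifting of logarithmic tangent vectors of the base
-/

set_option autoImplicit false
set_option linter.unusedVariables false
set_option linter.unusedSectionVars false

universe u

open Polynomial Pool.Agent.W558 Pool.Agent.W498.Tor
open Pool.Agent.TH188.WQ (Cp exists_lt)

namespace Pool.Agent.H176.Mix

section st

variable {k L : Type u} [Field k] [Field L] [Algebra k L] {T0 I0 : Type} [Fintype I0] {ι : Type}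
  {M0 : LM (⊥ : Subalgebra k L) ⊤ T0 I0}

/-- The point `ψ` lies on a component where the exponent `n` is negative. -/
def Pole {T I : Type} (M : LM (⊥ : Subalgebra k L) ⊤ T I) (t : T) {κ : Type u} [Field κ]
    [Algebra k κ] (ψ : M.A t →ₐ[k] κ) (n : I → ℤ) : Prop :=
  ∃ i, n i < 0 ∧ ψ ⟨M.x t i, M.xA t i⟩ = 0

/-- The model `M` of the extension `K` of `L` lies over the model `M0` of `L`; logarithmic tangent
vectors can be lifted if the forms with the indices in `J` which have a pole vanish. -/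
structure ASt (n : ι → I0 → ℤ) (h : T0 → ι → L) (hA : ∀ t j, h t j ∈ M0.A t) (J : Set ι)
    {K : Type u} [Field K] [Algebra k K] [Algebra L K] [IsScalarTower k L K] {T I : Type}
    [Fintype I] (M : LM (⊥ : Subalgebra k K) ⊤ T I) (π : T → T0) (Θ : I → I0 → ℤ) : Prop where
  ov : Pool.Agent.TH188.WQ.Ovr M0 M π Θ
  lf : ∀ t (κ : Type u) [Field κ] [Algebra k κ] (φ : M.A t →ₐ[k] κ) (ψ : M0.A (π t) →ₐ[k] κ),
    (∀ a (ha : a ∈ M0.A (π t)), φ ⟨algebraMap L K a, ov.le t a ha⟩ = ψ ⟨a, ha⟩) →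
    ∀ v0 : LT ψ (M0.x (π t)),
      (∀ j ∈ J, Pole M0 (π t) ψ (n j) → om v0 (n j) (hA (π t) j) = 0) →
      ∃ v : LT φ (M.x t), Cp v0 v Θ

lemma om_congr {K : Type u} [Field K] [Algebra k K] {A : Subalgebra k K} {κ : Type u} [Field κ]
    [Algebra k κ] {φ : A →ₐ[k] κ} {I : Type} [Fintype I] {x : I → K} (v : LT φ x) {n n' : I → ℤ}
    {h h' : K} (hh : h ∈ A) (hh' : h' ∈ A) (hn : n = n') (he : h = h') :
    om v n hh = om v n' hh' := by
  subst hn he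
  rfl

variable {n : ι → I0 → ℤ} {h : T0 → ι → L} {hA : ∀ t j, h t j ∈ M0.A t} {J : Set ι}
  {K : Type u} [Field K] [Algebra k K] [Algebra L K] [IsScalarTower k L K] {T I : Type}
  [Fintype I] {M : LM (⊥ : Subalgebra k K) ⊤ T I} {π : T → T0} {Θ : I → I0 → ℤ}

lemma ovr_of {T1 I1 : Type} [Fintype I1] {M1 : LM (⊥ : Subalgebra k K) ⊤ T1 I1} {π1 : T1 → T0}
    {Θ1 : I1 → I0 → ℤ} (ho : Pool.Agent.W558.Ovr M0 M1 π1 Θ1) :
    Pool.Agent.TH188.WQ.Ovr M0 M1 π1 Θ1 := ⟨ho.le, ho.x, ho.Θ0⟩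

lemma ovr_to {T1 I1 : Type} [Fintype I1] {M1 : LM (⊥ : Subalgebra k K) ⊤ T1 I1} {π1 : T1 → T0}
    {Θ1 : I1 → I0 → ℤ} (ho : Pool.Agent.TH188.WQ.Ovr M0 M1 π1 Θ1) :
    Pool.Agent.W558.Ovr M0 M1 π1 Θ1 := ⟨ho.le, ho.x, ho.Θ0⟩

/-- A pole of the pull-back lies over a pole. -/
lemma pole_pull (ho : Pool.Agent.TH188.WQ.Ovr M0 M π Θ) (t : T) {κ : Type u} [Field κ]
    [Algebra k κ] (φ : M.A t →ₐ[k] κ) (ψ : M0.A (π t) →ₐ[k] κ)
    (hψ : ∀ a (ha : a ∈ M0.A (π t)), φ ⟨algebraMap L K a, ho.le t a ha⟩ = ψ ⟨a, ha⟩)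
    {m : I0 → ℤ} (hm : ∀ i, m i ≤ 0) {N : I → ℤ} (hN : ∀ i, N i = ∑ i0, Θ i i0 * m i0)
    (hp : Pole M t φ N) : Pole M0 (π t) ψ m := by
  obtain ⟨i, hi, h0⟩ := hp
  rw [hN] at hi
  obtain ⟨i0, _, hi0⟩ := Finset.exists_lt_of_sum_lt (s := Finset.univ)
    (f := fun i0 => Θ i i0 * m i0) (g := fun _ => (0 : ℤ)) (by simpa using hi)
  have hn1 : m i0 < 0 := by
    rcases lt_or_eq_of_le (hm i0) with h1 | h1
    · exact h1
    · rw [h1, mul_zero] at hi0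
      exact absurd hi0 (lt_irrefl _)
  have hΘ1 : 0 < Θ i i0 := by
    rcases lt_or_eq_of_le (ho.Θ0 i i0) with h1 | h1
    · exact h1
    · rw [← h1, zero_mul] at hi0
      exact absurd hi0 (lt_irrefl _)
  refine ⟨i0, hn1, ?_⟩
  rw [← hψ]
  exact Pool.Agent.W32.WT.zero_pull (ovr_to ho) t φ i i0 hΘ1 h0

/-- The next step of a tower. -/
theorem ASt.next [Finite T] (hS : ASt n h hA J M π Θ) {K1 : Type u} [Field K1] [Algebra k K1]
    [Algebra L K1] [Algebra K K1] [IsScalarTower k L K1] [IsScalarTower k K K1]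
    [IsScalarTower L K K1] {T1 I1 : Type} [Fintype I1]
    {M1 : LM (⊥ : Subalgebra k K1) ⊤ T1 I1} {π1 : T1 → T} {Θ1 : I1 → I → ℤ}
    (ho : Pool.Agent.W558.Ovr M M1 π1 Θ1) (n' : I → ℤ) (h' : T → K) (hA' : ∀ t, h' t ∈ M.A t)
    (hC : Pool.Agent.W558.CLift ho n' h' hA') (J' : Set ι) (hJ : J ⊆ J')
    (hom : ∀ t (κ : Type u) [Field κ] [Algebra k κ] (φ : M.A t →ₐ[k] κ)
      (ψ : M0.A (π t) →ₐ[k] κ),
      (∀ a (ha : a ∈ M0.A (π t)), φ ⟨algebraMap L K a, hS.ov.le t a ha⟩ = ψ ⟨a, ha⟩) →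
      ∀ (v0 : LT ψ (M0.x (π t))) (v : LT φ (M.x t)), Cp v0 v Θ →
      (∀ j ∈ J', Pole M0 (π t) ψ (n j) → om v0 (n j) (hA (π t) j) = 0) →
      Pole M t φ n' → om v n' (hA' t) = 0) :
    ASt n h hA J' M1 (fun t => π (π1 t)) (fun i1 i0 => ∑ i, Θ1 i1 i * Θ i i0) := by
  refine ⟨hS.ov.comp (ovr_of ho), ?_⟩
  intro t κ _ _ φ ψ hψ v0 hK
  have hle := hS.ov.le (π1 t)
  have hψ' : ∀ a (ha : a ∈ M0.A (π (π1 t))), (φ.comp (Pool.Agent.W558.ci (ho.le t)))
      ⟨algebraMap L K a, hle a ha⟩ = ψ ⟨a, ha⟩ := by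
    intro a ha
    rw [← hψ a ha]
    change φ ⟨_, _⟩ = _
    congr 1
    exact Subtype.ext (IsScalarTower.algebraMap_apply L K K1 a).symm
  obtain ⟨v, hv⟩ := hS.lf (π1 t) κ (φ.comp (Pool.Agent.W558.ci (ho.le t))) ψ hψ' v0
    (fun j hj hp => hK j (hJ hj) hp)
  obtain ⟨v1, hv1, hv1'⟩ := hC t κ φ v (fun hpole => hom (π1 t) κ _ ψ hψ' v0 v hv hK hpole)
  have hc1 : Cp v v1 Θ1 := ⟨fun a ha ha' => rfl, fun a ha ha' => hv1 a ha, hv1'⟩
  exact ⟨v1, hv.comp hle hc1⟩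

/-- Transport. -/
theorem ASt.surj (hS : ASt n h hA J M π Θ) (K1 : Type u) [Field K1] [Algebra k K1]
    [Algebra L K1] [Algebra K K1] [IsScalarTower k L K1] [IsScalarTower k K K1]
    [IsScalarTower L K K1] (hsurj : Function.Surjective (algebraMap K K1)) :
    ASt n h hA J (mapLM (K := K1) M) π Θ := by
  classical
  have hinj : Function.Injective (em k K K1) := em_inj
  have key : ∀ a, algebraMap L K1 a = em k K K1 (algebraMap L K a) := fun a =>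
    IsScalarTower.algebraMap_apply L K K1 a
  have hmon : ∀ t (m : I → ℤ), ∏ i, (mapLM (K := K1) M).x t i ^ m i =
      em k K K1 (∏ i, M.x t i ^ m i) := by
    intro t m
    rw [map_prod]
    refine Finset.prod_congr rfl fun i _ => ?_
    rw [map_zpow₀]
    rfl
  have hle : ∀ t, ∀ a ∈ M0.A (π t), algebraMap L K1 a ∈ (mapLM (K := K1) M).A t := by
    intro t a ha
    rw [key]
    exact ⟨_, hS.ov.le t a ha, rfl⟩
  refine ⟨⟨hle, ?_, hS.ov.Θ0⟩, ?_⟩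
  · intro t i0
    rw [hmon, key, hS.ov.x]
  · intro t κ _ _ φ ψ hψ v0 hK
    obtain ⟨v, hv⟩ := hS.lf t κ (φ.comp (eqv (K := K1) (M.A t)).toAlgHom) ψ (by
      intro a ha
      rw [← hψ a ha]
      change φ (eqv (K := K1) (M.A t) ⟨_, _⟩) = φ ⟨_, _⟩
      congr 1
      exact Subtype.ext (key a).symm) v0 hK
    obtain ⟨v', he, hD⟩ := exists_lt M t φ v
    refine ⟨v', ?_, ?_, ?_⟩
    · intro a ha ha'
      exact hψ a ha
    · intro a ha ha'
      have h1 := hD (algebraMap L K a) (hS.ov.le t a ha) ((key a) ▸ ha')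
      have e1 : (⟨algebraMap L K1 a, ha'⟩ : (mapLM (K := K1) M).A t) =
        ⟨em k K K1 (algebraMap L K a), (key a) ▸ ha'⟩ := Subtype.ext (key a)
      rw [e1, h1, hv.dd a ha]
    · intro i0
      rw [he]
      exact hv.ee i0

/-- The identity. -/
theorem ASt.refl (n : ι → I0 → ℤ) (h : T0 → ι → L) (hA : ∀ t j, h t j ∈ M0.A t) (J : Set ι) :
    ASt (K := L) n h hA J M0 id (by classical exact fun i j => if i = j then 1 else 0) := by
  classical
  refine ⟨⟨fun t a ha => ha, ?_, ?_⟩, ?_⟩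
  · intro t i0
    change M0.x t i0 = _
    rw [Finset.prod_eq_single i0]
    · rw [if_pos rfl, zpow_one]
    · intro b _ hb
      rw [if_neg hb, zpow_zero]
    · intro h
      exact absurd (Finset.mem_univ _) h
  · intro i j
    split_ifs <;> norm_num
  · intro t κ _ _ φ ψ hψ v0 _
    have hφψ : φ = ψ := AlgHom.ext fun a => hψ a a.2
    subst hφψ
    refine ⟨v0, fun a ha ha' => rfl, fun a ha ha' => rfl, ?_⟩
    intro i0
    rw [Finset.sum_eq_single i0]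
    · rw [if_pos rfl]; push_cast; rw [one_mul]
    · intro b _ hb
      rw [if_neg hb]; push_cast; rw [zero_mul]
    · intro h
      exact absurd (Finset.mem_univ _) h

/-- Logarithmic modifications of the base. -/
theorem ASt.of_ov (n : ι → I0 → ℤ) (h : T0 → ι → L) (hA : ∀ t j, h t j ∈ M0.A t) (J : Set ι)
    {T' I' : Type} [Fintype I'] {M' : LM (⊥ : Subalgebra k L) ⊤ T' I'} {π' : T' → T0}
    {Θ' : I' → I0 → ℤ} (hO : Ov M0 M' π' Θ') (hΘ : ∀ i' i, 0 ≤ Θ' i' i) :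
    ASt (K := L) n h hA J M' π' Θ' := by
  refine ⟨⟨fun t a ha => hO.le t ha, fun t i => hO.x t i, hΘ⟩, ?_⟩
  intro t κ _ _ φ ψ hψ v0 _
  have hφψ : φ.comp (Subalgebra.inclusion (hO.le t)) = ψ := AlgHom.ext fun a => hψ a a.2
  subst hφψ
  obtain ⟨v, hv1, hv2⟩ := hO.lt t κ φ v0
  exact ⟨v, fun a ha ha' => rfl, fun a ha ha' => hv1 a ha, hv2⟩

end st

end Pool.Agent.H176.Mix
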