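import Pool.Agent.H176.Mix.Fin

/-!
# Towers of Artin-Schreier extensions with clean leading terms
-/

set_option autoImplicit false
set_option linter.unusedVariables false
set_option linter.unusedSectionVars false

universe u

open Polynomial Pool.Agent.W558 Pool.Agent.W498.Tor Pool.Agent.TH188.WP
open Pool.Agent.TH188.WQ (Cp)

namespace Pool.Agent.H176.Mix

section int

variable {k K : Type u} [Field k] [Field K] [Algebra k K] {T I : Type}

/-- The charts are integrally closed. -/
lemma int_mem {M : LM (⊥ : Subalgebra k K) ⊤ T I} (hR : Frc M) (t : T) {y : K}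
    (hy : IsIntegral (M.A t) y) : y ∈ M.A t := by
  have := M.sm t
  have hn : IsIntegrallyClosed (M.A t) := wd_norm k (M.A t)
  have hfr : IsFractionRing (M.A t) K := by
    refine IsFractionRing.of_field _ _ fun x => ?_
    obtain ⟨a, ha, b, hb, hb0, h1⟩ := hR t x
    refine ⟨⟨a, ha⟩, ⟨b, hb⟩, ?_⟩
    rw [h1]
    exact (div_eq_mul_inv _ _).symm
  obtain ⟨w, hw⟩ := (IsIntegrallyClosed.isIntegral_iff (R := M.A t)).1 hy
  rw [← hw]
  exact w.2

end int

section small

variable {k L : Type u} [Field k] [Field L] [Algebra k L] {T0 I0 : Type} [Fintype I0]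
  {M0 : LM (⊥ : Subalgebra k L) ⊤ T0 I0}
  {K : Type u} [Field K] [Algebra k K] [Algebra L K] [IsScalarTower k L K]

/-- The element `y` of the extension `K` is integral over the chart `t0`, and, on the
components with `m i < 0`, some power of it is divisible by the local equations. -/
def Small (M0 : LM (⊥ : Subalgebra k L) ⊤ T0 I0) (m : I0 → ℤ) (t0 : T0) (y : K) : Prop :=
  IsIntegral (M0.A t0) y ∧ ∀ i, m i < 0 → ∃ e : ℕ, 0 < e ∧
    IsIntegral (M0.A t0) (y ^ e * algebraMap L K (M0.x t0 i)⁻¹)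

variable {T I : Type} [Fintype I] {M : LM (⊥ : Subalgebra k K) ⊤ T I} {π : T → T0}
  {Θ : I → I0 → ℤ}

lemma int_of_base (ho : Pool.Agent.TH188.WQ.Ovr M0 M π Θ) (hR : Frc M) (t : T) {y : K}
    (hy : IsIntegral (M0.A (π t)) y) : y ∈ M.A t := by
  apply int_mem hR t
  obtain ⟨P, hP, hP0⟩ := hy
  let φ : M0.A (π t) →+* M.A t := (Pool.Agent.TH188.WQ.ci (ho.le t)).toRingHom
  refine ⟨P.map φ, hP.map φ, ?_⟩
  rw [eval₂_map]
  exact hP0

/-- Small functions are regular, and their logarithmic forms vanish on the poles. -/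
lemma small_om (ho : Pool.Agent.TH188.WQ.Ovr M0 M π Θ) (hR : Frc M) (t : T) {m : I0 → ℤ}
    (hm : ∀ i, m i ≤ 0) {y : K} (hy : Small M0 m (π t) y) {N : I → ℤ}
    (hN : ∀ i, N i = ∑ i0, Θ i i0 * m i0) (hyA : y ∈ M.A t)
    (κ : Type u) [Field κ] [Algebra k κ] (φ : M.A t →ₐ[k] κ) (hp : Pole M t φ N)
    (v : LT φ (M.x t)) (N' : I → ℤ) : om v N' hyA = 0 := by
  classical
  have := M.sm t
  obtain ⟨i, hi, h0⟩ := hp
  rw [hN] at hi
  obtain ⟨i0, _, hi0⟩ := Finset.exists_lt_of_sum_lt (s := Finset.univ)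
    (f := fun i0 => Θ i i0 * m i0) (g := fun _ => (0 : ℤ)) (by simpa using hi)
  have hn1 : m i0 < 0 := by
    rcases lt_or_eq_of_le (hm i0) with h1 | h1
    · exact h1
    · rw [h1, mul_zero] at hi0
      exact absurd hi0 (lt_irrefl _)
  have hΘ1 : 0 < Θ i i0 := by
    rcases lt_or_eq_of_le (ho.Θ0 i i0) with h1 | h1
    · exact h1
    · rw [← h1, zero_mul] at hi0
      exact absurd hi0 (lt_irrefl _)
  obtain ⟨e, he, hint⟩ := hy.2 i0 hn1
  have hc := int_of_base ho hR t hint
  have hx0 : algebraMap L K (M0.x (π t) i0) ≠ 0 := by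
    rw [_root_.map_ne_zero]
    exact M0.x0 _ _
  -- the local equation divides the power
  have hdx : ∃ s ∈ M.A t, algebraMap L K (M0.x (π t) i0) = M.x t i * s := by
    refine ⟨∏ i', M.x t i' ^ (Θ i' i0 - if i' = i then 1 else 0),
      Pool.Agent.W32.WT.zmem_prod (M.xA t) _ fun i' => Or.inl ?_, ?_⟩
    · by_cases h5 : i' = i
      · rw [if_pos h5, h5]; omega
      · rw [if_neg h5]; have := ho.Θ0 i' i0; omega
    · rw [ho.x]
      rw [← Finset.mul_prod_erase Finset.univ _ (Finset.mem_univ i),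
        ← Finset.mul_prod_erase Finset.univ (fun i' => M.x t i' ^
          (Θ i' i0 - if i' = i then 1 else 0)) (Finset.mem_univ i), ← mul_assoc]
      congr 1
      · rw [if_pos rfl, ← zpow_one_add₀ (M.x0 t i)]
        congr 1
        ring
      · refine Finset.prod_congr rfl fun i' hi' => ?_
        rw [if_neg (Finset.ne_of_mem_erase hi'), sub_zero]
  obtain ⟨s, hs, hxs⟩ := hdx
  have hdvd : (⟨M.x t i, M.xA t i⟩ : M.A t) ∣ (⟨y, hyA⟩ : M.A t) ^ e := by
    refine ⟨⟨s, hs⟩ * ⟨_, hc⟩, ?_⟩
    apply Subtype.ext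
    change y ^ e = M.x t i * (s * (y ^ e * algebraMap L K (M0.x (π t) i0)⁻¹))
    rw [map_inv₀, ← mul_assoc, ← hxs]
    field_simp
  obtain ⟨c, hc'⟩ := dvd_of_dvd_pow' (M.snc t) (M.xA t) i _ e hdvd
  unfold om
  rw [hc', v.D.leib, map_mul, h0, v.hx i (M.xA t i), h0]
  simp

end small

section tower

variable {k L : Type u} [Field k] [Field L] [Algebra k L] {T0 I0 : Type} [Fintype I0] {ι : Type}
  [Finite T0] {M0 : LM (⊥ : Subalgebra k L) ⊤ T0 I0}
  {n : ι → I0 → ℤ} {h : T0 → ι → L} {hA : ∀ t j, h t j ∈ M0.A t}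

variable (n h hA) in
/-- The extension `K` of `L` has a model over the model `M0`. -/
def GTB (J : Set ι) {G : Type} (g : G → L)
    (K : Type u) [Field K] [Algebra k K] [Algebra L K] [IsScalarTower k L K] : Prop :=
  ∃ (T I : Type) (_ : Finite T) (_ : Fintype I) (M : LM (⊥ : Subalgebra k K) ⊤ T I)
    (π : T → T0) (Θ : I → I0 → ℤ) (Γ : G → I → ℤ),
    ASt n h hA J M π Θ ∧ Fn M (fun b => algebraMap L K (g b)) Γ ∧ Frc M

lemma GTB.mono {J J' : Set ι} (hJ : J ⊆ J') {G : Type} {g : G → L} {K : Type u} [Field K]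
    [Algebra k K] [Algebra L K] [IsScalarTower k L K] (hM : GTB n h hA J g K) :
    GTB n h hA J' g K := by
  obtain ⟨T, I, hT, hI, M, π, Θ, Γ, hS, hF, hR⟩ := hM
  exact ⟨T, I, hT, hI, M, π, Θ, Γ, ⟨hS.ov, fun t κ _ _ φ ψ hψ v0 hK =>
    hS.lf t κ φ ψ hψ v0 fun j hj => hK j (hJ hj)⟩, hF, hR⟩

/-- Transport. -/
theorem GTB.surj {J : Set ι} {G : Type} {g : G → L} {K : Type u} [Field K]
    [Algebra k K] [Algebra L K] [IsScalarTower k L K] (hM : GTB n h hA J g K)
    (K1 : Type u) [Field K1] [Algebra k K1] [Algebra L K1] [Algebra K K1]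
    [IsScalarTower k L K1] [IsScalarTower k K K1] [IsScalarTower L K K1]
    (hsurj : Function.Surjective (algebraMap K K1)) : GTB n h hA J g K1 := by
  classical
  obtain ⟨T, I, hT, hI, M, π, Θ, Γ, hS, hFn, hFrc⟩ := hM
  have hinj : Function.Injective (em k K K1) := em_inj
  refine ⟨T, I, hT, hI, mapLM (K := K1) M, π, Θ, Γ, hS.surj K1 hsurj, ?_, ?_⟩
  · intro b t
    obtain ⟨w, hw0, hw, hw', h1⟩ := hFn b t
    refine ⟨em k K K1 w, (map_ne_zero_iff _ hinj).2 hw0, ⟨w, hw, rfl⟩,
      ⟨w⁻¹, hw', map_inv₀ (em k K K1) w⟩, ?_⟩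
    have h2 : ∏ i, (mapLM (K := K1) M).x t i ^ Γ b i = em k K K1 (∏ i, M.x t i ^ Γ b i) := by
      rw [map_prod]
      refine Finset.prod_congr rfl fun i _ => ?_
      rw [map_zpow₀]
      rfl
    rw [h2, ← map_mul]
    change algebraMap L K1 (g b) = _
    rw [IsScalarTower.algebraMap_apply L K K1]
    exact congrArg _ h1
  · intro t x
    obtain ⟨l, rfl⟩ := hsurj x
    obtain ⟨c, hc, d, hd, hd0, h1⟩ := hFrc t l
    refine ⟨em k K K1 c, ⟨c, hc, rfl⟩, em k K K1 d, ⟨d, hd, rfl⟩,
      (map_ne_zero_iff _ hinj).2 hd0, ?_⟩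
    change em k K K1 l = _
    rw [h1, map_mul, map_inv₀]

/-- The beginning. -/
theorem gtb_init (J : Set ι) {G : Type} {g : G → L} {Γ : G → I0 → ℤ} (hG : Fn M0 g Γ)
    (hR : Frc M0) : GTB n h hA J g L :=
  ⟨T0, I0, inferInstance, inferInstance, M0, id, _, Γ, ASt.refl n h hA J, hG, hR⟩

variable {p : ℕ} [Fact p.Prime] [PerfectField k] [CharP k p] {f : ι → L} {a : T0 → ι → L}

/-- One step of a tower. -/
theorem gtb_step (hN : NBW p M0 f n a h) (K K1 : Type u)
    [Field K] [Algebra k K] [Algebra L K] [IsScalarTower k L K] [CharP K p]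
    [Field K1] [Algebra k K1] [Algebra L K1] [Algebra K K1]
    [IsScalarTower k L K1] [IsScalarTower k K K1] [IsScalarTower L K K1] [CharP K1 p]
    {J : Set ι} {G : Type} {g : G → L} (hM : GTB n h hN.hA J g K) (j : ι) (hj : j ∉ J) (gK : K)
    (hsm : ∀ t0, ∃ b : K, Small M0 (n j) t0
      ((gK - (b ^ p - b)) * algebraMap L K (∏ i, M0.x t0 i ^ (-n j i))))
    (z : K1) (hz : z ^ p - z = algebraMap K K1 (algebraMap L K (f j) + gK))
    (hgen0 : IntermediateField.adjoin K {z} = ⊤) : GTB n h hN.hA (insert j J) g K1 := by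
  classical
  have hp : p.Prime := Fact.out
  have hall := wt_pack.{u}
  by_cases hzL : ∃ b : K, b ^ p - b = algebraMap L K (f j) + gK
  · obtain ⟨b, hb⟩ := hzL
    have h1 : (z - algebraMap K K1 b) ^ p = z - algebraMap K K1 b := by
      rw [sub_pow_char]
      have h2 : algebraMap K K1 b ^ p - algebraMap K K1 b = z ^ p - z := by
        rw [← map_pow, ← map_sub, hb, hz]
      linear_combination -h2
    obtain ⟨c, hc⟩ := Pool.Agent.W558.zc_of_pow p _ h1
    have h2 : z = algebraMap K K1 (b + zc p K c) := by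
      rw [map_add, alg_zc]
      linear_combination hc
    refine GTB.mono (Set.subset_insert j J) (hM.surj K1 ?_)
    have h4 : IntermediateField.adjoin K {z} = ⊥ := by
      rw [IntermediateField.adjoin_simple_eq_bot_iff, h2]
      exact IntermediateField.algebraMap_mem _ _
    rw [h4] at hgen0
    intro y
    have h5 : y ∈ (⊤ : IntermediateField K K1) := trivial
    rw [← hgen0] at h5
    exact IntermediateField.mem_bot.1 h5
  · push Not at hzL
    obtain ⟨T, I, hT, hI, M, π, Θ, Γ, hS, hFn, hFrc⟩ := hM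
    set f' : K := algebraMap L K (f j) + gK with hf'
    have hgen : ∀ y : K1, ∃ P : K[X], aeval z P = y := by
      intro y
      have hint : IsIntegral K z := by
        refine ⟨X ^ p - (X + C f'), ?_, ?_⟩
        · apply monic_X_pow_sub
          rw [degree_X_add_C]
          exact_mod_cast hp.one_lt
        · rw [← aeval_def, map_sub, map_add, map_pow, aeval_X, aeval_C, ← hz]
          ring
      have h8 : y ∈ Algebra.adjoin K {z} := by
        have h9 : y ∈ (IntermediateField.adjoin K {z}).toSubalgebra := by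
          rw [hgen0]; trivial
        rwa [IntermediateField.adjoin_simple_toSubalgebra_of_isAlgebraic hint.isAlgebraic] at h9
      rw [Algebra.adjoin_singleton_eq_range_aeval] at h8
      exact h8
    -- the normal form
    choose b hb using fun t => hsm (π t)
    let y : T → K := fun t => (gK - (b t ^ p - b t)) *
      algebraMap L K (∏ i, M0.x (π t) i ^ (-n j i))
    have hyA : ∀ t, y t ∈ M.A t := fun t => int_of_base hS.ov hFrc t (hb t).1
    let n1 : I → ℤ := fun i => ∑ i0, Θ i i0 * n j i0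
    let h1 : T → K := fun t => algebraMap L K (h (π t) j) + y t
    have hhA : ∀ t, algebraMap L K (h (π t) j) ∈ M.A t := fun t => hS.ov.le t _ (hN.hA (π t) j)
    have hA1 : ∀ t, h1 t ∈ M.A t := fun t => (M.A t).add_mem (hhA t) (hyA t)
    have hom : ∀ t (κ : Type u) [Field κ] [Algebra k κ] (φ : M.A t →ₐ[k] κ)
        (ψ : M0.A (π t) →ₐ[k] κ),
        (∀ a (ha : a ∈ M0.A (π t)), φ ⟨algebraMap L K a, hS.ov.le t a ha⟩ = ψ ⟨a, ha⟩) →
        ∀ (v0 : LT ψ (M0.x (π t))) (v : LT φ (M.x t)), Cp v0 v Θ →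
        Pole M t φ n1 → om v n1 (hA1 t) = om v0 (n j) (hN.hA (π t) j) := by
      intro t κ _ _ φ ψ hψ v0 v hv hpole
      have e1 : om v n1 (hA1 t) = om v n1 (hhA t) + om v n1 (hyA t) := by
        unfold om
        have e2 : (⟨h1 t, hA1 t⟩ : M.A t) = ⟨_, hhA t⟩ + ⟨_, hyA t⟩ := rfl
        rw [e2, map_add, map_add]
        ring
      rw [e1, small_om hS.ov hFrc t (hN.n0 j) (hb t) (fun i => rfl) (hyA t) κ φ hpole v n1,
        add_zero]
      exact hv.om (n j) (hN.hA (π t) j) (hhA t)
    have hN1 : NAS p M f' n1 (fun t => algebraMap L K (a (π t) j) + b t) h1 := by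
      refine ⟨?_, hA1, ?_, ?_⟩
      · intro i
        exact Finset.sum_nonpos fun i0 _ =>
          mul_nonpos_of_nonneg_of_nonpos (hS.ov.Θ0 i i0) (hN.n0 j i0)
      · intro t
        have e1 : ∏ i, M.x t i ^ n1 i = algebraMap L K (∏ i, M0.x (π t) i ^ n j i) :=
          (Pool.Agent.W32.WT.mon_pull (ovr_to hS.ov) t (n j)).symm
        have e2 : algebraMap L K (∏ i, M0.x (π t) i ^ n j i) *
            algebraMap L K (∏ i, M0.x (π t) i ^ (-n j i)) = 1 := by
          rw [← map_mul, ← Finset.prod_mul_distrib, ← map_one (algebraMap L K)]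
          congr 1
          refine Finset.prod_eq_one fun i _ => ?_
          rw [← zpow_add₀ (M0.x0 (π t) i), add_neg_cancel, zpow_zero]
        rw [hf', hN.eq (π t) j, e1, map_add, map_sub, map_pow, map_mul, add_pow_char]
        change _ = _ + algebraMap L K (∏ i, M0.x (π t) i ^ n j i) *
          (algebraMap L K (h (π t) j) + (gK - (b t ^ p - b t)) *
            algebraMap L K (∏ i, M0.x (π t) i ^ (-n j i)))
        linear_combination -(gK - (b t ^ p - b t)) * e2
      · intro t κ _ _ φ hpole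
        let ψ : M0.A (π t) →ₐ[k] κ := φ.comp (Pool.Agent.TH188.WQ.ci (hS.ov.le t))
        have hpj : Pole M0 (π t) ψ (n j) :=
          pole_pull hS.ov t φ ψ (fun a ha => rfl) (hN.n0 j) (fun i => rfl) hpole
        obtain ⟨v0, hv1, hv2⟩ := hN.ln (π t) κ ψ j hpj
        obtain ⟨v, hv⟩ := hS.lf t κ φ ψ (fun a ha => rfl) v0 (fun l hl hpl =>
          hv2 l (fun h => hj (h ▸ hl)) hpl)
        refine ⟨v, ?_⟩
        rw [hom t κ φ ψ (fun a ha => rfl) v0 v hv hpole]
        exact hv1
    have hirr : Irreducible (X ^ p - X - C f' : K[X]) := hall.irr p K f' hzL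
    have hF : Prime (X ^ p - X - C f' : K[X]) := hirr.prime
    have hz0 : aeval z (X ^ p - X - C f' : K[X]) = 0 := by
      rw [map_sub, map_sub, map_pow, aeval_X, aeval_C, hz, sub_self]
    have hmon : (X ^ p - X - C f' : K[X]).Monic := by
      have h1 : (X ^ p - X - C f' : K[X]) = X ^ p - (X + C f') := by ring
      rw [h1]
      apply monic_X_pow_sub
      rw [degree_X_add_C]
      exact_mod_cast hp.one_lt
    have hz' : ∀ P : K[X], aeval z P = 0 ↔ (X ^ p - X - C f' : K[X]) ∣ P := by
      intro P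
      have h1 : minpoly K z = X ^ p - X - C f' :=
        (minpoly.eq_of_irreducible_of_monic hirr hz0 hmon).symm
      rw [← h1]
      exact (minpoly.dvd_iff).symm
    let N' := FractionRing K[X]
    let Z : N' := algebraMap K[X] N' X
    have hZ : ∀ P : K[X], aeval Z P = algebraMap K[X] N' P := by
      intro P
      have h1 : aeval Z = IsScalarTower.toAlgHom K K[X] N' := by
        ext; simp [Z]
      rw [h1]; rfl
    have htr : Transcendental K Z := by
      rw [transcendental_iff]
      intro P hP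
      rw [hZ] at hP
      exact (FaithfulSMul.algebraMap_eq_zero_iff K[X] N').1 hP
    have hfr : ∀ x : N', ∃ P P' : K[X], P' ≠ 0 ∧ x * aeval Z P' = aeval Z P := by
      intro x
      obtain ⟨P, P', hP, rfl⟩ := IsFractionRing.div_surjective (A := K[X]) x
      have h0 := nonZeroDivisors.ne_zero hP
      refine ⟨P, P', h0, ?_⟩
      rw [hZ, hZ, div_mul_cancel₀ _ (alg_ne_zero h0)]
    have hQ : IsQA p Z f' (FQ (k := k) hF) := by
      intro x
      simp only [hZ]
      exact mem_FQ hF
    obtain ⟨T1, I1, hT1, hI1, M1, y1, c1, μ1, Γ1, hP1, hL1, hF1⟩ :=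
      hall.bun p k K N' T I G M f' n1 _ h1 (fun b => algebraMap L K (g b)) Γ hN1 hFrc hFn hzL Z
        htr hfr (FQ (k := k) hF) hQ
    obtain ⟨T2, I2, hT2, hI2, M2, y2, c2, μ2, Γ2, hP2, hL2, hF2, hfin⟩ :=
      hall.ppr p k K N' T I T1 I1 G M f' n1 _ h1 M1 _ (FQ (k := k) hF) y1 c1 μ1
        (fun b => algebraMap K N' (algebraMap L K (g b))) Γ1 hN1 hP1 hL1 hF1
    have eF : Z ^ p - Z - algebraMap K N' f' = algebraMap K[X] N' (X ^ p - X - C f') := by
      rw [← hZ, map_sub, map_sub, map_pow, aeval_X, aeval_C]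
    rw [eF] at hP2
    obtain ⟨T3, I3, hT3, hI3, M3, π', Θ', ho, Γ3, hCL, hF3, hR3⟩ :=
      hall.pcut p k K N' K1 T I T2 I2 G M f' n1 _ h1 M2 _ (FQ (k := k) hF) y2 c2 μ2
        (fun b => algebraMap L K (g b)) Γ2
        hN1 hP2 hL2 hF2 hfin (mem_FQ_of hF) (alg_ne_zero hF.ne_zero) (piZ hF z hz')
        (piZ_eq_zero hF z hz') (piZ_surj hF z hz' hgen) (FQ_total hF) (by
          intro l hl
          have h1 : algebraMap K N' l = algebraMap K[X] N' (C l) := by
            rw [← hZ, aeval_C]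
          have h2 : (⟨algebraMap K N' l, hl⟩ : FQ (k := k) hF) =
              ⟨algebraMap K[X] N' (C l), mem_FQ_of hF⟩ := Subtype.ext h1
          rw [h2, piZ_alg, aeval_C])
    have e2 : (fun b => algebraMap K K1 (algebraMap L K (g b))) =
        fun b => algebraMap L K1 (g b) :=
      funext fun b => (IsScalarTower.algebraMap_apply L K K1 _).symm
    rw [e2] at hF3
    refine ⟨T3, I3, hT3, hI3, M3, fun t => π (π' t), fun i1 i0 => ∑ i, Θ' i1 i * Θ i i0, Γ3,
      ?_, hF3, hR3⟩
    refine hS.next ho n1 h1 hN1.hA hCL (insert j J) (Set.subset_insert j J) ?_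
    intro t κ _ _ φ ψ hψ v0 v hv hK hpole
    have hpj : Pole M0 (π t) ψ (n j) :=
      pole_pull hS.ov t φ ψ hψ (hN.n0 j) (fun i => rfl) hpole
    rw [hom t κ φ ψ hψ v0 v hv hpole]
    exact hK j (Set.mem_insert j J) hpj

end tower

section amb

variable {k L : Type u} [Field k] [Field L] [Algebra k L] {T0 I0 : Type} [Fintype I0]
  [Finite T0] {M0 : LM (⊥ : Subalgebra k L) ⊤ T0 I0}
  {E : Type u} [Field E] [Algebra k E] [Algebra L E] [IsScalarTower k L E]

lemma Small.of_alg {K : Type u} [Field K] [Algebra k K] [Algebra L K] [IsScalarTower k L K]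
    [Algebra K E] [IsScalarTower L K E] {m : I0 → ℤ} {t0 : T0} {y : K}
    (hy : Small M0 m t0 (algebraMap K E y)) : Small M0 m t0 y := by
  have hinj : Function.Injective (algebraMap K E) := (algebraMap K E).injective
  have ht : IsScalarTower (M0.A t0) K E := by
    refine IsScalarTower.of_algebraMap_eq fun c => ?_
    change algebraMap L E c = algebraMap K E (algebraMap L K c)
    rw [← IsScalarTower.algebraMap_apply L K E]
  refine ⟨(isIntegral_algebraMap_iff hinj).1 hy.1, fun i hi => ?_⟩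
  obtain ⟨e, he, h1⟩ := hy.2 i hi
  refine ⟨e, he, (isIntegral_algebraMap_iff hinj).1 ?_⟩
  rw [map_mul, map_pow, ← IsScalarTower.algebraMap_apply L K E]
  exact h1

variable {r : ℕ} {n : Fin r → I0 → ℤ} {h : T0 → Fin r → L}
  {p : ℕ} [Fact p.Prime] [PerfectField k] [CharP k p] {f : Fin r → L} {a : T0 → Fin r → L}

/-- Models of towers. -/
theorem gtb_tower (hN : NBW p M0 f n a h) {G : Type} {g : G → L} {Γ : G → I0 → ℤ}
    (hG : Fn M0 g Γ) (hR : Frc M0) (z gg : Fin r → E)
    (hz : ∀ i, z i ^ p - z i = algebraMap L E (f i) + gg i)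
    (hg : ∀ i, gg i ∈ IntermediateField.adjoin L (z '' {l | l < i}))
    (hsm : ∀ i t0, ∃ b ∈ IntermediateField.adjoin L (z '' {l | l < i}), Small M0 (n i) t0
      ((gg i - (b ^ p - b)) * algebraMap L E (∏ l, M0.x t0 l ^ (-n i l)))) :
    ∀ m : ℕ, m ≤ r → GTB n h hN.hA {l : Fin r | l.val < m} g
      (IntermediateField.adjoin L (z '' {l : Fin r | l.val < m})) := by
  intro m
  induction m with
  | zero =>
    intro _
    refine (gtb_init _ hG hR).surj _ ?_
    intro y
    have h1 : z '' {l : Fin r | l.val < 0} = ∅ := by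
      rw [Set.image_eq_empty]
      ext l
      simp
    have h4 : IntermediateField.adjoin L (z '' {l : Fin r | l.val < 0}) = ⊥ := by
      rw [h1, IntermediateField.adjoin_empty]
    have h2 : ∀ x : E, x ∈ IntermediateField.adjoin L (z '' {l : Fin r | l.val < 0}) →
        x ∈ (⊥ : IntermediateField L E) := by
      intro x hx
      rw [h4] at hx
      exact hx
    obtain ⟨x, hx⟩ := IntermediateField.mem_bot.1 (h2 y y.2)
    exact ⟨x, Subtype.ext hx⟩
  | succ m ih =>
    intro hm
    have hM := ih (Nat.le_of_succ_le hm)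
    let j : Fin r := ⟨m, hm⟩
    have hset : {l : Fin r | l.val < m + 1} = insert j {l : Fin r | l.val < m} := by
      ext l
      simp only [Set.mem_ofPred_eq, Set.mem_insert_iff, j, Fin.ext_iff]
      omega
    have hset' : {l : Fin r | l < j} = {l : Fin r | l.val < m} := by
      ext l
      simp only [Set.mem_ofPred_eq, j, Fin.lt_def]
    let K := IntermediateField.adjoin L (z '' {l : Fin r | l.val < m})
    let K1 := IntermediateField.adjoin L (z '' {l : Fin r | l.val < m + 1})
    have hle : K ≤ K1 := IntermediateField.adjoin.mono L _ _ (Set.image_mono fun l hl => by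
      rw [Set.mem_ofPred_eq] at hl ⊢
      omega)
    let _ : Algebra K K1 := (IntermediateField.inclusion hle).toRingHom.toAlgebra
    have t1 : IsScalarTower L K K1 := IsScalarTower.of_algebraMap_eq fun c => rfl
    have t2 : IsScalarTower k K K1 := IsScalarTower.of_algebraMap_eq fun c => rfl
    have t3 : IsScalarTower K K1 E := IsScalarTower.of_algebraMap_eq fun c => rfl
    have hcE : CharP E p := charP_of_injective_algebraMap (algebraMap k E).injective p
    have hcK : CharP K p := charP_of_injective_algebraMap (algebraMap k K).injective p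
    have hcK1 : CharP K1 p := charP_of_injective_algebraMap (algebraMap k K1).injective p
    have hzK1 : z j ∈ K1 := IntermediateField.subset_adjoin L _ ⟨j, Nat.lt_succ_self m, rfl⟩
    let z' : K1 := ⟨z j, hzK1⟩
    have hgK : gg j ∈ K := by
      have h1 := hg j
      rw [hset'] at h1
      exact h1
    let gK : K := ⟨gg j, hgK⟩
    have hM' : GTB n h hN.hA {l : Fin r | l.val < m} g K := hM
    refine GTB.mono (le_of_eq hset.symm) (K := K1) ?_
    refine gtb_step hN K K1 hM' j (by simp [j]) gK ?_ z' ?_ ?_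
    · intro t0
      obtain ⟨b, hb, h1⟩ := hsm j t0
      rw [hset'] at hb
      refine ⟨⟨b, hb⟩, ?_⟩
      have h2 : Small M0 (n j) t0 (algebraMap K E ((gK - ((⟨b, hb⟩ : K) ^ p - ⟨b, hb⟩)) *
          algebraMap L K (∏ i, M0.x t0 i ^ (-n j i)))) := h1
      exact h2.of_alg
    · apply (algebraMap K1 E).injective
      rw [map_sub, map_pow]
      change z j ^ p - z j = algebraMap L E (f j) + gg j
      exact hz j
    · rw [eq_top_iff]
      intro y _
      have h1 : K1 ≤ ((IntermediateField.adjoin K {z'}).restrictScalars L).map K1.val := by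
        change IntermediateField.adjoin L _ ≤ _
        rw [IntermediateField.adjoin_le_iff]
        rintro _ ⟨l, hl, rfl⟩
        by_cases hlm : l.val < m
        · have h2 : z l ∈ K := IntermediateField.subset_adjoin L _ ⟨l, hlm, rfl⟩
          refine ⟨algebraMap K K1 ⟨z l, h2⟩, ?_, rfl⟩
          exact IntermediateField.algebraMap_mem (IntermediateField.adjoin K {z'})
            (⟨z l, h2⟩ : K)
        · have h2 : l = j := by
            apply Fin.ext
            change l.val = m
            rw [Set.mem_ofPred_eq] at hl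
            omega
          rw [h2]
          exact ⟨z', IntermediateField.mem_adjoin_simple_self K z', rfl⟩
      obtain ⟨y', hy', hyy⟩ := h1 y.2
      have h3 : y' = y := Subtype.ext hyy
      rw [← h3]
      exact hy'

/-- Models of towers, lying over the given model. -/
theorem model_tower (hN : NBW p M0 f n a h) {G : Type} {g : G → L} {Γ : G → I0 → ℤ}
    (hG : Fn M0 g Γ) (hR : Frc M0) (z gg : Fin r → E)
    (hz : ∀ i, z i ^ p - z i = algebraMap L E (f i) + gg i)
    (hg : ∀ i, gg i ∈ IntermediateField.adjoin L (z '' {l | l < i}))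
    (hsm : ∀ i t0, ∃ b ∈ IntermediateField.adjoin L (z '' {l | l < i}), Small M0 (n i) t0
      ((gg i - (b ^ p - b)) * algebraMap L E (∏ l, M0.x t0 l ^ (-n i l))))
    (hgen : IntermediateField.adjoin L (Set.range z) = ⊤) :
    ∃ (T I : Type) (_ : Finite T) (_ : Fintype I) (M' : LM (⊥ : Subalgebra k E) ⊤ T I)
      (Γ' : G → I → ℤ), Fn M' (fun b => algebraMap L E (g b)) Γ' ∧ Frc M' ∧
        Pool.Agent.TH214.Dm M0.A (algebraMap L E) M' := by
  have h1 := gtb_tower hN hG hR z gg hz hg hsm r le_rfl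
  have h2 : z '' {l : Fin r | l.val < r} = Set.range z := by
    rw [← Set.image_univ]
    congr 1
    ext l
    simp
  rw [h2] at h1
  let K := IntermediateField.adjoin L (Set.range z)
  have t1 : IsScalarTower k K E := IsScalarTower.of_algebraMap_eq fun c => rfl
  have h3 : GTB n h hN.hA {l : Fin r | l.val < r} g K := h1
  obtain ⟨T, I, hT, hI, M, π, Θ, Γ', hS, hF, hR'⟩ := h3.surj E (by
    intro y
    have hy : y ∈ K := by
      change y ∈ IntermediateField.adjoin L (Set.range z)
      rw [hgen]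
      trivial
    exact ⟨⟨y, hy⟩, rfl⟩)
  exact ⟨T, I, hT, hI, M, Γ', hF, hR', fun t => ⟨π t, fun x hx => hS.ov.le t x hx⟩⟩

end amb

end Pool.Agent.H176.Mix
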