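import Pool.Agent.H176.Mix.Stg
import Pool.Agent.TH214.Dom2
import Pool.Agent.W558.WT.All
import Pool.Agent.W356.WT.Nas

/-!
# The normal form of functions in towers of Artin-Schreier extensions, pointwise version
The proofs of `nas` and `nxt` follow `Pool.Agent.W356.WT.Nas` and `Pool.Agent.W32.WT.Nxt`, the
proof of `tn` is that of `Pool.Agent.W558.WT.Tn`; here the independence of the forms is only
required for those functions which have a pole at the point.
-/

set_option autoImplicit false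
set_option linter.unusedVariables false
set_option linter.unusedSectionVars false

universe u

open Polynomial Pool.Agent.W558 Pool.Agent.W498.Tor Pool.Agent.W32.WT
open Pool.Agent.TH188.WQ (exists_lt)

namespace Pool.Agent.H176.Mix

section mz

variable {k K : Type u} [Field k] [Field K] [Algebra k K] {T I : Type} [Fintype I]
  {M : LM (⊥ : Subalgebra k K) ⊤ T I}

/-- A monomial vanishes at the poles of `n1`. -/
lemma mono_zero {t : T} {κ : Type u} [Field κ] [Algebra k κ] {φ : M.A t →ₐ[k] κ} {m n1 : I → ℤ}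
    (hm0 : ∀ i, m i ≤ 0) (hle : ∀ i, 0 ≤ m i - n1 i ∨ (M.x t i)⁻¹ ∈ M.A t) {Y : M.A t}
    (hY : (Y : K) = ∏ i, M.x t i ^ (m i - n1 i)) (hpl : ¬ Pole M t φ m) (hp : Pole M t φ n1) :
    φ Y = 0 := by
  classical
  obtain ⟨i, hi, h0⟩ := hp
  have hN0 : m i = 0 := by
    rcases lt_or_eq_of_le (hm0 i) with h2 | h2
    · exact absurd ⟨i, h2, h0⟩ hpl
    · exact h2
  have hle' : ∀ i', 0 ≤ m i' - n1 i' - (if i' = i then 1 else 0) ∨
      (M.x t i')⁻¹ ∈ M.A t := by
    intro i'
    by_cases h2 : i' = i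
    · left
      rw [if_pos h2, h2, hN0]
      omega
    · rw [if_neg h2, sub_zero]
      exact hle i'
  have h3 : Y = (⟨M.x t i, M.xA t i⟩ : M.A t) *
      ⟨∏ i', M.x t i' ^ (m i' - n1 i' - (if i' = i then 1 else 0)),
        zmem_prod (M.xA t) _ hle'⟩ := by
    apply Subtype.ext
    rw [hY]
    change _ = M.x t i * ∏ i', M.x t i' ^ (m i' - n1 i' - (if i' = i then 1 else 0))
    rw [← Finset.mul_prod_erase Finset.univ _ (Finset.mem_univ i),
      ← Finset.mul_prod_erase Finset.univ (fun i' => M.x t i' ^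
        (m i' - n1 i' - (if i' = i then 1 else 0))) (Finset.mem_univ i), ← mul_assoc]
    congr 1
    · rw [if_pos rfl, ← zpow_one_add₀ (M.x0 t i)]
      congr 1
      ring
    · refine Finset.prod_congr rfl fun i' hi' => ?_
      rw [if_neg (Finset.ne_of_mem_erase hi'), sub_zero]
  rw [h3, map_mul, h0, zero_mul]

/-- The local equation of a pole is not invertible. -/
lemma not_inv {t : T} {κ : Type u} [Field κ] [Algebra k κ] {φ : M.A t →ₐ[k] κ} {i : I}
    (h0 : φ ⟨M.x t i, M.xA t i⟩ = 0) : (M.x t i)⁻¹ ∉ M.A t := by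
  intro hi'
  have h1 : φ ⟨M.x t i, M.xA t i⟩ * φ ⟨(M.x t i)⁻¹, hi'⟩ = 1 := by
    rw [← map_mul, ← map_one φ]
    congr 1
    apply Subtype.ext
    exact mul_inv_cancel₀ (M.x0 t i)
  rw [h0, zero_mul] at h1
  exact zero_ne_one h1

end mz

section tw

variable {k L : Type u} [Field k] [Field L] [Algebra k L] {T I : Type}

/-- Joint Artin-Schreier normal form of the functions `f j`, pointwise version. -/
structure NBW (p : ℕ) [Fintype I] {ι : Type} (M : LM (⊥ : Subalgebra k L) ⊤ T I) (f : ι → L)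
    (n : ι → I → ℤ) (a h : T → ι → L) : Prop where
  n0 : ∀ j i, n j i ≤ 0
  hA : ∀ t j, h t j ∈ M.A t
  eq : ∀ t j, f j = a t j ^ p - a t j + (∏ i, M.x t i ^ n j i) * h t j
  ln : ∀ t (κ : Type u) [Field κ] [Algebra k κ] (φ : M.A t →ₐ[k] κ) (j : ι), Pole M t φ (n j) →
    ∃ v : LT φ (M.x t), om v (n j) (hA t j) ≠ 0 ∧
      ∀ l, l ≠ j → Pole M t φ (n l) → om v (n l) (hA t l) = 0

/-- Normal form of functions in a tower of Artin-Schreier extensions, pointwise version. -/
structure TWw (p : ℕ) [CharP L p] [Fintype I] {ι : Type} [Fintype ι]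
    (M : LM (⊥ : Subalgebra k L) ⊤ T I) (f : ι → L) (n : ι → I → ℤ) (a h : T → ι → L)
    (Λ : Submodule (ZMod p) (ι → ZMod p)) (R : T → Set ι) : Prop where
  n0 : ∀ j i, n j i ≤ 0
  hA : ∀ t j, h t j ∈ M.A t
  eq : ∀ t j, f j = a t j ^ p - a t j + (∏ i, M.x t i ^ n j i) * h t j
  cmp : ∀ t j l, (∀ i, n j i ≤ n l i ∨ (M.x t i)⁻¹ ∈ M.A t) ∨
    (∀ i, n l i ≤ n j i ∨ (M.x t i)⁻¹ ∈ M.A t)
  wl : ∀ μ ∈ Λ, ∃ w : L, w ^ p - w = ∑ j, zc p L (μ j) * f j
  ech : ∀ t, ∀ μ ∈ Λ, μ ≠ 0 →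
    ∃ j ∈ R t, μ j ≠ 0 ∧ ∀ l, μ l ≠ 0 → ∀ i, n j i ≤ n l i ∨ (M.x t i)⁻¹ ∈ M.A t
  rep : ∀ t (lam : ι → ZMod p), ∃ μ ∈ Λ, ∀ j ∈ R t, lam j = μ j
  ln : ∀ t (κ : Type u) [Field κ] [Algebra k κ] (φ : M.A t →ₐ[k] κ) (j : ι), j ∉ R t →
    Pole M t φ (n j) →
    ∃ v : LT φ (M.x t), om v (n j) (hA t j) ≠ 0 ∧
      ∀ l, l ∉ R t → l ≠ j → Pole M t φ (n l) → om v (n l) (hA t l) = 0

variable (p : ℕ) [Fact p.Prime] [CharP L p] {ι : Type} [Finite T] [Fintype I] [Fintype ι]
  {M : LM (⊥ : Subalgebra k L) ⊤ T I} {f : ι → L} {n : ι → I → ℤ} {a h : T → ι → L}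
  {Λ : Submodule (ZMod p) (ι → ZMod p)} {R : T → Set ι}

/-- Existence of the normal form of a combination. -/
theorem tnw (hW : TWw p M f n a h Λ R) (lam : ι → ZMod p) (hlam : lam ∉ Λ) :
    ∃ (n' : I → ℤ) (h' : T → L) (lr : T → ι → ZMod p) (j0 : T → ι),
      TN p M n h Λ R lam n' h' lr j0 := by
  classical
  choose μ hμΛ hμR using fun t => hW.rep t lam
  have hlr0 : ∀ t, ∃ l, (lam - μ t) l ≠ 0 := by
    intro t
    by_contra hcon
    push Not at hcon
    apply hlam
    have h1 : lam = μ t := by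
      funext l
      exact sub_eq_zero.1 (hcon l)
    rw [h1]
    exact hμΛ t
  have hmin : ∀ t (s : Finset ι), s.Nonempty → ∃ j ∈ s, ∀ l ∈ s, ∀ i, n j i ≤ n l i ∨
      (M.x t i)⁻¹ ∈ M.A t := by
    intro t s hs
    induction hs using Finset.Nonempty.cons_induction with
    | singleton j =>
      refine ⟨j, Finset.mem_singleton_self j, fun l hl i => ?_⟩
      rw [Finset.mem_singleton.1 hl]
      exact Or.inl le_rfl
    | cons j s hj hs ih =>
      obtain ⟨l0, hl0, h0⟩ := ih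
      rcases hW.cmp t j l0 with h1 | h1
      · refine ⟨j, Finset.mem_cons_self j s, fun l hl i => ?_⟩
        rcases Finset.mem_cons.1 hl with rfl | hl
        · exact Or.inl le_rfl
        · rcases h1 i with h2 | h2
          · rcases h0 l hl i with h3 | h3
            · exact Or.inl (h2.trans h3)
            · exact Or.inr h3
          · exact Or.inr h2
      · refine ⟨l0, Finset.mem_cons.2 (Or.inr hl0), fun l hl i => ?_⟩
        rcases Finset.mem_cons.1 hl with rfl | hl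
        · exact h1 i
        · exact h0 l hl i
  have hj : ∀ t, ∃ j, (lam - μ t) j ≠ 0 ∧ ∀ l, (lam - μ t) l ≠ 0 → ∀ i, n j i ≤ n l i ∨
      (M.x t i)⁻¹ ∈ M.A t := by
    intro t
    obtain ⟨l0, hl0⟩ := hlr0 t
    obtain ⟨j, hj, h1⟩ := hmin t (Finset.univ.filter fun l => (lam - μ t) l ≠ 0)
      ⟨l0, Finset.mem_filter.2 ⟨Finset.mem_univ _, hl0⟩⟩
    exact ⟨j, (Finset.mem_filter.1 hj).2, fun l hl =>
      h1 l (Finset.mem_filter.2 ⟨Finset.mem_univ _, hl⟩)⟩
  choose j0 hj0 hle using hj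
  have hR0 : ∀ t, ∀ j ∈ R t, (lam - μ t) j = 0 := fun t j hj => by
    rw [Pi.sub_apply, hμR t j hj, sub_self]
  have key : ∀ t t' i, (M.x t i)⁻¹ ∉ M.A t → (M.x t' i)⁻¹ ∉ M.A t' →
      n (j0 t') i ≤ n (j0 t) i := by
    intro t t' i ht ht'
    have h1 : ∀ l, (lam - μ t') l = (lam - μ t) l + (μ t - μ t') l := by
      intro l
      simp only [Pi.sub_apply]
      ring
    have h2 : ∀ l, (lam - μ t') l ≠ 0 → n (j0 t') i ≤ n l i := fun l hl =>
      (hle t' l hl i).resolve_right ht'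
    by_cases hν : μ t - μ t' = 0
    · apply h2
      rw [h1, hν, Pi.zero_apply, add_zero]
      exact hj0 t
    · obtain ⟨j, hjR, hj1, hj2⟩ := hW.ech t (μ t - μ t') (Λ.sub_mem (hμΛ t) (hμΛ t')) hν
      have h3 : (lam - μ t') j ≠ 0 := by
        rw [h1, hR0 t j hjR, zero_add]
        exact hj1
      by_cases h4 : (μ t - μ t') (j0 t) = 0
      · apply h2
        rw [h1, h4, add_zero]
        exact hj0 t
      · exact (h2 j h3).trans ((hj2 _ h4 i).resolve_right ht)
  let n' : I → ℤ := fun i => if H : ∃ t, (M.x t i)⁻¹ ∉ M.A t then n (j0 H.choose) i else 0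
  have hn' : ∀ t i, n' i = n (j0 t) i ∨ (M.x t i)⁻¹ ∈ M.A t := by
    intro t i
    by_cases ht : (M.x t i)⁻¹ ∈ M.A t
    · exact Or.inr ht
    · left
      have H : ∃ t, (M.x t i)⁻¹ ∉ M.A t := ⟨t, ht⟩
      have h1 : n' i = n (j0 H.choose) i := dif_pos H
      rw [h1]
      exact le_antisymm (key _ _ _ ht H.choose_spec) (key _ _ _ H.choose_spec ht)
  refine ⟨n', fun t => ∑ l, zc p L ((lam - μ t) l) *
    ((∏ i, M.x t i ^ (n l i - n' i)) * h t l), fun t => lam - μ t, j0,
    ⟨fun t => ?_, hR0, hj0, hle, hn', ?_, fun t => rfl⟩⟩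
  · rw [sub_sub_cancel]
    exact hμΛ t
  · intro i
    change (if H : ∃ t, (M.x t i)⁻¹ ∉ M.A t then n (j0 H.choose) i else 0) ≤ 0
    split_ifs
    · exact hW.n0 _ _
    · exact le_rfl

variable {p}

section tn

variable {lam : ι → ZMod p} {n' : I → ℤ} {h' : T → L} {lr : T → ι → ZMod p} {j0 : T → ι}

lemma tn_le (hN : TN p M n h Λ R lam n' h' lr j0) (t : T) (l : ι) (hl : lr t l ≠ 0) (i : I) :
    0 ≤ n l i - n' i ∨ (M.x t i)⁻¹ ∈ M.A t := by
  rcases hN.eqn t i with h1 | h1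
  · rcases hN.le t l hl i with h2 | h2
    · left; omega
    · exact Or.inr h2
  · exact Or.inr h1

/-- The form of the combination at the poles. -/
lemma om_pole (hn0 : ∀ j i, n j i ≤ 0) (hA : ∀ t j, h t j ∈ M.A t)
    (hN : TN p M n h Λ R lam n' h' lr j0) (hA' : ∀ t, h' t ∈ M.A t) (t : T) (κ : Type u)
    [Field κ] [Algebra k κ] (φ : M.A t →ₐ[k] κ) (hp : Pole M t φ n') :
    ∃ y : ι → κ, (∀ l, ¬ Pole M t φ (n l) → y l = 0) ∧ (∀ l, lr t l = 0 → y l = 0) ∧
      y (j0 t) ≠ 0 ∧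
      ∀ v : LT φ (M.x t), om v n' (hA' t) = ∑ l, y l * om v (n l) (hA t l) := by
  classical
  have : CharP k p := (algebraMap k L).charP (algebraMap k L).injective p
  have : CharP κ p := charP_of_injective_algebraMap (algebraMap k κ).injective p
  obtain ⟨Y, hY, hom⟩ := om_comb (φ := φ) t (hA t) (lr t) n' (hN.hf t) (hA' t)
    (fun l hl i => tn_le hN t l hl i)
  refine ⟨fun l => ((lr t l).val : κ) * φ (Y l), ?_, ?_, ?_, ?_⟩
  · intro l hpl
    by_cases hl : lr t l = 0
    · change ((lr t l).val : κ) * φ (Y l) = 0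
      rw [hl, ZMod.val_zero]; simp
    · change ((lr t l).val : κ) * φ (Y l) = 0
      rw [mono_zero (hn0 l) (tn_le hN t l hl) (hY l hl) hpl hp, mul_zero]
  · intro l hl
    change ((lr t l).val : κ) * φ (Y l) = 0
    rw [hl, ZMod.val_zero]; simp
  · have hYu : φ (Y (j0 t)) ≠ 0 := by
      have hinv : ∀ i, 0 ≤ n' i - n (j0 t) i ∨ (M.x t i)⁻¹ ∈ M.A t := by
        intro i
        rcases hN.eqn t i with h1 | h1
        · left; omega
        · exact Or.inr h1
      have h1 : Y (j0 t) * (⟨∏ i, M.x t i ^ (n' i - n (j0 t) i),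
          zmem_prod (M.xA t) _ hinv⟩ : M.A t) = 1 := by
        apply Subtype.ext
        show (Y (j0 t) : L) * ∏ i, M.x t i ^ (n' i - n (j0 t) i) = 1
        rw [hY _ (hN.ne t), ← Finset.prod_mul_distrib]
        refine Finset.prod_eq_one fun i _ => ?_
        rw [← zpow_add₀ (M.x0 t i)]
        have : n (j0 t) i - n' i + (n' i - n (j0 t) i) = 0 := by ring
        rw [this, zpow_zero]
      have h2 := congrArg φ h1
      rw [map_mul, map_one] at h2
      exact left_ne_zero_of_mul_eq_one h2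
    refine mul_ne_zero ?_ hYu
    intro h1
    rw [CharP.cast_eq_zero_iff κ p] at h1
    have h2 := ZMod.val_lt (lr t (j0 t))
    have h3 : (lr t (j0 t)).val ≠ 0 := by
      rw [Ne, ZMod.val_eq_zero]; exact hN.ne t
    exact h3 (Nat.eq_zero_of_dvd_of_lt h1 h2)
  · intro v
    rw [hom v]
    refine Finset.sum_congr rfl fun l _ => ?_
    rw [mul_assoc]

/-- The pole of the combination is a pole of the leading function. -/
lemma pole_j0 (hN : TN p M n h Λ R lam n' h' lr j0) (t : T) {κ : Type u}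
    [Field κ] [Algebra k κ] {φ : M.A t →ₐ[k] κ} (hp : Pole M t φ n') :
    Pole M t φ (n (j0 t)) := by
  obtain ⟨i, hi, h0⟩ := hp
  rcases hN.eqn t i with h1 | h1
  · exact ⟨i, by rw [← h1]; exact hi, h0⟩
  · exact absurd h1 (not_inv h0)

/-- A logarithmic tangent vector at a pole of the combination. -/
lemma exists_v (hW : TWw p M f n a h Λ R) (hN : TN p M n h Λ R lam n' h' lr j0)
    (hA' : ∀ t, h' t ∈ M.A t) (t : T) (κ : Type u)
    [Field κ] [Algebra k κ] (φ : M.A t →ₐ[k] κ) (hp : Pole M t φ n') :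
    ∃ v : LT φ (M.x t), om v n' (hA' t) ≠ 0 ∧
      ∀ l, l ∉ R t → l ≠ j0 t → Pole M t φ (n l) → om v (n l) (hW.hA t l) = 0 := by
  classical
  have hj0R : j0 t ∉ R t := fun hj => hN.ne t (hN.zero t _ hj)
  obtain ⟨v, hv1, hv2⟩ := hW.ln t κ φ (j0 t) hj0R (pole_j0 hN t hp)
  obtain ⟨y, hy1, hy2, hy3, hy4⟩ := om_pole hW.n0 hW.hA hN hA' t κ φ hp
  refine ⟨v, ?_, hv2⟩
  rw [hy4 v, Finset.sum_eq_single (j0 t)]
  · exact mul_ne_zero hy3 hv1
  · intro l _ hl
    by_cases hlR : l ∈ R t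
    · rw [hy2 l (hN.zero t l hlR), zero_mul]
    · by_cases hpl : Pole M t φ (n l)
      · rw [hv2 l hlR hl hpl, mul_zero]
      · rw [hy1 l hpl, zero_mul]
  · intro h1
    exact absurd (Finset.mem_univ _) h1

end tn

/-- The normal form of a combination. -/
theorem nasw (hW : TWw p M f n a h Λ R) {lam : ι → ZMod p} {n' : I → ℤ} {h' : T → L}
    {lr : T → ι → ZMod p} {j0 : T → ι} (hN : TN p M n h Λ R lam n' h' lr j0) :
    ∃ a' : T → L, NAS p M (∑ j, zc p L (lam j) * f j) n' a' h' := by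
  classical
  have hw : ∀ t, ∃ w : L, w ^ p - w = ∑ j, zc p L ((lam - lr t) j) * f j :=
    fun t => hW.wl _ (hN.mem t)
  choose w hw using hw
  have hmA : ∀ t l, lr t l ≠ 0 → ∏ i, M.x t i ^ (n l i - n' i) ∈ M.A t := fun t l hl =>
    zmem_prod (M.xA t) _ (tn_le hN t l hl)
  have hA' : ∀ t, h' t ∈ M.A t := by
    intro t
    rw [hN.hf t]
    refine (M.A t).sum_mem fun l _ => ?_
    by_cases hl : lr t l = 0
    · rw [hl, map_zero, zero_mul]
      exact (M.A t).zero_mem
    · exact (M.A t).mul_mem (Pool.Agent.W356.WT.Nas.zc_mem p _ _)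
        ((M.A t).mul_mem (hmA t l hl) (hW.hA t l))
  refine ⟨fun t => w t + ∑ l, zc p L (lr t l) * a t l, hN.n0, hA', ?_, ?_⟩
  · intro t
    have h1 : ∑ j, zc p L (lam j) * f j =
        ∑ j, zc p L ((lam - lr t) j) * f j + ∑ j, zc p L (lr t j) * f j := by
      rw [← Finset.sum_add_distrib]
      refine Finset.sum_congr rfl fun j _ => ?_
      rw [Pi.sub_apply, map_sub]
      ring
    have h2 : (∏ i, M.x t i ^ n' i) * h' t =
        ∑ l, zc p L (lr t l) * ((∏ i, M.x t i ^ n l i) * h t l) := by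
      rw [hN.hf t, Finset.mul_sum]
      refine Finset.sum_congr rfl fun l _ => ?_
      have h3 : (∏ i, M.x t i ^ n l i) =
          (∏ i, M.x t i ^ n' i) * ∏ i, M.x t i ^ (n l i - n' i) := by
        rw [← Finset.prod_mul_distrib]
        refine Finset.prod_congr rfl fun i _ => ?_
        rw [← zpow_add₀ (M.x0 t i)]
        congr 1
        ring
      rw [h3]
      ring
    have h3 : (w t + ∑ l, zc p L (lr t l) * a t l) ^ p =
        w t ^ p + ∑ l, zc p L (lr t l) * a t l ^ p := by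
      rw [add_pow_char, sum_pow_char]
      congr 1
      refine Finset.sum_congr rfl fun l _ => ?_
      rw [mul_pow, Pool.Agent.W32.WT.zc_pow]
    rw [h1, ← hw t, h2, h3]
    have h4 : ∑ j, zc p L (lr t j) * f j = ∑ j, zc p L (lr t j) * a t j ^ p -
        ∑ j, zc p L (lr t j) * a t j + ∑ l, zc p L (lr t l) * ((∏ i, M.x t i ^ n l i) * h t l) := by
      rw [← Finset.sum_sub_distrib, ← Finset.sum_add_distrib]
      refine Finset.sum_congr rfl fun j _ => ?_
      conv_lhs => rw [hW.eq t j]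
      ring
    rw [h4]
    ring
  · intro t κ _ _ φ hp
    obtain ⟨v, hv, -⟩ := exists_v hW hN hA' t κ φ hp
    exact ⟨v, hv⟩

/-- Transport of the normal form to the image of the model. -/
theorem iso_mapw {K : Type u} [Field K] [Algebra k K] [Algebra L K] [IsScalarTower k L K]
    [CharP K p] (hsurj : Function.Surjective (algebraMap L K)) {G : Type} (g : G → L)
    (Γ : G → I → ℤ) (hT : TWw p M f n a h Λ R) (hFn : Fn M g Γ) (hFrc : Frc M) :
    TWw p (mapLM (K := K) M) (fun j => algebraMap L K (f j)) n (fun t j => algebraMap L K (a t j))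
      (fun t j => algebraMap L K (h t j)) Λ R ∧
    Fn (mapLM (K := K) M) (fun b => algebraMap L K (g b)) Γ ∧ Frc (mapLM (K := K) M) := by
  classical
  have hinj : Function.Injective (em k L K) := em_inj
  have hmem : ∀ t (x : L), em k L K x ∈ (M.A t).map (em k L K) ↔ x ∈ M.A t := by
    intro t x
    constructor
    · rintro ⟨y, hy, he⟩
      rw [← hinj he]
      exact hy
    · intro hx
      exact ⟨x, hx, rfl⟩
  have hinvm : ∀ t i, ((mapLM (K := K) M).x t i)⁻¹ ∈ (mapLM (K := K) M).A t ↔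
      (M.x t i)⁻¹ ∈ M.A t := by
    intro t i
    change (em k L K (M.x t i))⁻¹ ∈ (M.A t).map (em k L K) ↔ _
    rw [← map_inv₀, hmem]
  have hmon : ∀ t (m : I → ℤ), ∏ i, (mapLM (K := K) M).x t i ^ m i =
      em k L K (∏ i, M.x t i ^ m i) := by
    intro t m
    rw [map_prod]
    refine Finset.prod_congr rfl fun i _ => ?_
    rw [map_zpow₀]
    rfl
  refine ⟨⟨hT.n0, ?_, ?_, ?_, ?_, ?_, hT.rep, ?_⟩, ?_, ?_⟩
  · intro t j
    exact ⟨h t j, hT.hA t j, rfl⟩
  · intro t j
    rw [hmon]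
    change em k L K (f j) = em k L K (a t j) ^ p - em k L K (a t j) + em k L K _ * em k L K (h t j)
    rw [hT.eq t j, map_add, map_sub, map_pow, map_mul]
  · intro t j l
    rcases hT.cmp t j l with h1 | h1
    · exact Or.inl fun i => (h1 i).imp id (hinvm t i).2
    · exact Or.inr fun i => (h1 i).imp id (hinvm t i).2
  · intro μ hμ
    obtain ⟨w, hw⟩ := hT.wl μ hμ
    refine ⟨algebraMap L K w, ?_⟩
    rw [← map_pow, ← map_sub, hw, map_sum]
    refine Finset.sum_congr rfl fun j _ => ?_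
    rw [map_mul, zc_map]
  · intro t μ hμ h0
    obtain ⟨j, hj, hj0, hl⟩ := hT.ech t μ hμ h0
    exact ⟨j, hj, hj0, fun l hl0 i => (hl l hl0 i).imp id (hinvm t i).2⟩
  · intro t κ _ _ φ j hj ⟨i, hi, hφ⟩
    obtain ⟨v, hv, hv'⟩ := hT.ln t κ (φ.comp (eqv (K := K) (M.A t)).toAlgHom) j hj ⟨i, hi, hφ⟩
    obtain ⟨v', he, hD⟩ := exists_lt M t φ v
    have hom : ∀ l (h1 : algebraMap L K (h t l) ∈ (mapLM (K := K) M).A t),
        om v' (n l) h1 = om v (n l) (hT.hA t l) := by
      intro l h1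
      unfold om
      have h2 := hD (h t l) (hT.hA t l) h1
      change v'.D.D ⟨em k L K (h t l), h1⟩ + φ ⟨em k L K (h t l), h1⟩ * _ = _
      rw [h2, he]
      congr 1
    refine ⟨v', ?_, ?_⟩
    · exact fun h0 => hv ((hom j _).symm.trans h0)
    · rintro l hl hlj ⟨i', hi', hφ'⟩
      exact (hom l _).trans (hv' l hl hlj ⟨i', hi', hφ'⟩)
  · intro b t
    obtain ⟨w, hw0, hw, hw', h1⟩ := hFn b t
    refine ⟨em k L K w, (map_ne_zero_iff _ hinj).2 hw0, ⟨w, hw, rfl⟩,
      ⟨w⁻¹, hw', map_inv₀ (em k L K) w⟩, ?_⟩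
    rw [hmon]
    change em k L K (g b) = _
    rw [h1, map_mul]
  · intro t x
    obtain ⟨l, rfl⟩ := hsurj x
    obtain ⟨c, hc, d, hd, hd0, h1⟩ := hFrc t l
    refine ⟨em k L K c, ⟨c, hc, rfl⟩, em k L K d, ⟨d, hd, rfl⟩,
      (map_ne_zero_iff _ hinj).2 hd0, ?_⟩
    change em k L K l = _
    rw [h1, map_mul, map_inv₀]

/-- The next step of the tower. -/
theorem nxtw (hW : TWw p M f n a h Λ R) {lam : ι → ZMod p} {n' : I → ℤ} {h' : T → L}
    {lr : T → ι → ZMod p} {j0 : T → ι} (hN : TN p M n h Λ R lam n' h' lr j0)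
    (hA' : ∀ t, h' t ∈ M.A t) {K : Type u} [Field K] [Algebra k K] [Algebra L K]
    [IsScalarTower k L K] [CharP K p] {T1 I1 : Type} [Finite T1] [Fintype I1]
    (M1 : LM (⊥ : Subalgebra k K) ⊤ T1 I1) {π : T1 → T} {Θ : I1 → I → ℤ}
    (ho : Pool.Agent.W558.Ovr M M1 π Θ) (hC : Pool.Agent.W558.CLift ho n' h' hA') (w : K)
    (hw : w ^ p - w = ∑ j, zc p K (lam j) * algebraMap L K (f j)) :
    TWw p M1 (fun j => algebraMap L K (f j)) (fun j i1 => ∑ i, Θ i1 i * n j i)
      (fun t j => algebraMap L K (a (π t) j)) (fun t j => algebraMap L K (h (π t) j))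
      (Λ ⊔ Submodule.span (ZMod p) {lam}) (fun t => insert (j0 (π t)) (R (π t))) := by
  classical
  have hlr0 : ∀ t, j0 t ∉ R t := fun t hj => hN.ne t (hN.zero t _ hj)
  have hmemL : lam ∈ Submodule.span (ZMod p) {lam} := Submodule.mem_span_singleton_self lam
  refine ⟨?_, ?_, ?_, ?_, ?_, ?_, ?_, ?_⟩
  · intro j i1
    exact Finset.sum_nonpos fun i _ => mul_nonpos_of_nonneg_of_nonpos (ho.Θ0 i1 i) (hW.n0 j i)
  · intro t j
    exact ho.le t _ (hW.hA (π t) j)
  · intro t j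
    show algebraMap L K (f j) = _
    rw [← mon_pull ho t (n j), ← map_pow, ← map_sub, ← map_mul, ← map_add, ← hW.eq (π t) j]
  · intro t j l
    rcases hW.cmp (π t) j l with h1 | h1
    · exact Or.inl (cmp_pull ho t h1)
    · exact Or.inr (cmp_pull ho t h1)
  · intro μ hμ
    obtain ⟨μ0, hμ0, μ1, hμ1, rfl⟩ := Submodule.mem_sup.mp hμ
    obtain ⟨c, rfl⟩ := Submodule.mem_span_singleton.mp hμ1
    obtain ⟨w0, hw0⟩ := hW.wl μ0 hμ0
    refine ⟨algebraMap L K w0 + zc p K c * w, ?_⟩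
    have e1 : (algebraMap L K w0 + zc p K c * w) ^ p =
        algebraMap L K (w0 ^ p) + zc p K c * w ^ p := by
      rw [add_pow_char, mul_pow, Pool.Agent.W32.WT.zc_pow, map_pow]
    have e2 : algebraMap L K (w0 ^ p - w0) = ∑ j, zc p K (μ0 j) * algebraMap L K (f j) := by
      rw [hw0, map_sum]
      refine Finset.sum_congr rfl fun j _ => ?_
      rw [map_mul, zc_map]
    have e3 : ∑ j, zc p K ((μ0 + c • lam) j) * algebraMap L K (f j) =
        ∑ j, zc p K (μ0 j) * algebraMap L K (f j) +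
          zc p K c * ∑ j, zc p K (lam j) * algebraMap L K (f j) := by
      rw [Finset.mul_sum, ← Finset.sum_add_distrib]
      refine Finset.sum_congr rfl fun j _ => ?_
      rw [Pi.add_apply, Pi.smul_apply, smul_eq_mul, map_add, map_mul]
      ring
    rw [e1, e3, ← e2, ← hw, map_sub]
    ring
  · intro t μ hμ hμ0
    obtain ⟨μ0, hμ0', μ1, hμ1, rfl⟩ := Submodule.mem_sup.mp hμ
    obtain ⟨c, rfl⟩ := Submodule.mem_span_singleton.mp hμ1
    have key : ∃ j ∈ insert (j0 (π t)) (R (π t)), (μ0 + c • lam) j ≠ 0 ∧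
        ∀ l, (μ0 + c • lam) l ≠ 0 → lec M n (π t) j l := by
      set ν : ι → ZMod p := μ0 + c • (lam - lr (π t)) with hν
      have hνΛ : ν ∈ Λ := Λ.add_mem hμ0' (Λ.smul_mem c (hN.mem (π t)))
      have hμν : ∀ l, (μ0 + c • lam) l = ν l + c * lr (π t) l := by
        intro l
        simp only [hν, Pi.add_apply, Pi.smul_apply, Pi.sub_apply, smul_eq_mul]
        ring
      by_cases hc : c = 0
      · have h1 : ∀ l, (μ0 + c • lam) l = ν l := fun l => by rw [hμν, hc, zero_mul, add_zero]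
        have h2 : ν ≠ 0 := by
          intro h3
          apply hμ0
          funext l
          rw [h1, h3]
        obtain ⟨j, hj, hj1, hj2⟩ := hW.ech (π t) ν hνΛ h2
        refine ⟨j, Set.mem_insert_of_mem _ hj, by rw [h1]; exact hj1, fun l hl => hj2 l ?_⟩
        rw [← h1]; exact hl
      · by_cases hν0 : ν = 0
        · refine ⟨j0 (π t), Set.mem_insert _ _, ?_, fun l hl => ?_⟩
          · rw [hμν, hν0, Pi.zero_apply, zero_add]
            exact mul_ne_zero hc (hN.ne (π t))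
          · rw [hμν, hν0, Pi.zero_apply, zero_add] at hl
            exact hN.le (π t) l (right_ne_zero_of_mul hl)
        · obtain ⟨j1, hj, hj1, hj2⟩ := hW.ech (π t) ν hνΛ hν0
          by_cases h10 : lec M n (π t) j1 (j0 (π t))
          · refine ⟨j1, Set.mem_insert_of_mem _ hj, ?_, fun l hl => ?_⟩
            · rw [hμν, hN.zero (π t) j1 hj, mul_zero, add_zero]; exact hj1
            · by_cases hνl : ν l = 0
              · rw [hμν, hνl, zero_add] at hl
                exact lec_trans h10 (hN.le (π t) l (right_ne_zero_of_mul hl))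
              · exact hj2 l hνl
          · have h01 : lec M n (π t) (j0 (π t)) j1 := by
              rcases hW.cmp (π t) j1 (j0 (π t)) with h3 | h3
              · exact absurd h3 h10
              · exact h3
            have hν00 : ν (j0 (π t)) = 0 := by
              by_contra h4
              exact h10 (hj2 _ h4)
            refine ⟨j0 (π t), Set.mem_insert _ _, ?_, fun l hl => ?_⟩
            · rw [hμν, hν00, zero_add]
              exact mul_ne_zero hc (hN.ne (π t))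
            · by_cases hνl : ν l = 0
              · rw [hμν, hνl, zero_add] at hl
                exact hN.le (π t) l (right_ne_zero_of_mul hl)
              · exact lec_trans h01 (hj2 l hνl)
    obtain ⟨j, hj, hj1, hj2⟩ := key
    exact ⟨j, hj, hj1, fun l hl => cmp_pull ho t (hj2 l hl)⟩
  · intro t lam'
    obtain ⟨ν, hν, hν1⟩ := hW.rep (π t) lam'
    set c : ZMod p := (lam' (j0 (π t)) - ν (j0 (π t))) / lr (π t) (j0 (π t)) with hc
    refine ⟨(ν - c • (lam - lr (π t))) + c • lam, Submodule.mem_sup.mpr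
      ⟨_, Λ.sub_mem hν (Λ.smul_mem c (hN.mem (π t))), _, Submodule.smul_mem _ c hmemL, rfl⟩, ?_⟩
    intro j hj
    have e1 : ((ν - c • (lam - lr (π t))) + c • lam) j = ν j + c * lr (π t) j := by
      simp only [Pi.add_apply, Pi.smul_apply, Pi.sub_apply, smul_eq_mul]
      ring
    rw [e1]
    rcases Set.mem_insert_iff.mp hj with h1 | h1
    · rw [h1, hc, div_mul_cancel₀ _ (hN.ne (π t))]
      ring
    · rw [hN.zero (π t) j h1, mul_zero, add_zero]
      exact hν1 j h1
  · intro t κ _ _ φ' j hj hpj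
    have hjR : j ∉ R (π t) := fun h1 => hj (Set.mem_insert_of_mem _ h1)
    have hj0 : j ≠ j0 (π t) := fun h1 => hj (h1 ▸ Set.mem_insert _ _)
    have hpull : ∀ l, Pole M1 t φ' (fun i1 => ∑ i, Θ i1 i * n l i) →
        Pole M (π t) (φ'.comp (Pool.Agent.W558.ci (ho.le t))) (n l) := fun l hl =>
      pole_pull (ovr_of ho) t φ' _ (fun a ha => rfl) (hW.n0 l) (fun i => rfl) hl
    obtain ⟨vj, hvj1, hvj2⟩ := hW.ln (π t) κ (φ'.comp (Pool.Agent.W558.ci (ho.le t))) j hjR
      (hpull j hpj)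
    -- the vector to be lifted
    obtain ⟨v, hv1, hv2, hv3⟩ : ∃ v : LT (φ'.comp (Pool.Agent.W558.ci (ho.le t))) (M.x (π t)),
        om v (n j) (hW.hA (π t) j) ≠ 0 ∧
        (∀ l, l ∉ insert (j0 (π t)) (R (π t)) → l ≠ j →
          Pole M (π t) (φ'.comp (Pool.Agent.W558.ci (ho.le t))) (n l) →
          om v (n l) (hW.hA (π t) l) = 0) ∧
        ((∃ i, n' i < 0 ∧ φ' ⟨algebraMap L K (M.x (π t) i), ho.le t _ (M.xA (π t) i)⟩ = 0) →
          om v n' (hA' (π t)) = 0) := by
      by_cases hpole : ∃ i, n' i < 0 ∧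
          φ' ⟨algebraMap L K (M.x (π t) i), ho.le t _ (M.xA (π t) i)⟩ = 0
      · have hpole' : Pole M (π t) (φ'.comp (Pool.Agent.W558.ci (ho.le t))) n' := hpole
        obtain ⟨v0, hv01, hv02⟩ := exists_v hW hN hA' (π t) κ
          (φ'.comp (Pool.Agent.W558.ci (ho.le t))) hpole'
        set s : κ := om vj n' (hA' (π t)) / om v0 n' (hA' (π t)) with hs
        refine ⟨lcomb 1 (-s) vj v0, ?_, ?_, ?_⟩
        · rw [om_lcomb, hv02 j hjR hj0 (hpull j hpj)]
          simpa using hvj1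
        · intro l hl hlj hpl
          have hlR : l ∉ R (π t) := fun h1 => hl (Set.mem_insert_of_mem _ h1)
          have hl0 : l ≠ j0 (π t) := fun h1 => hl (h1 ▸ Set.mem_insert _ _)
          rw [om_lcomb, hv02 l hlR hl0 hpl, hvj2 l hlR hlj hpl]
          simp
        · intro _
          rw [om_lcomb, hs]
          field_simp
          ring
      · refine ⟨vj, hvj1, fun l hl hlj hpl => hvj2 l (fun h1 => hl (Set.mem_insert_of_mem _ h1))
          hlj hpl, fun h1 => absurd h1 hpole⟩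
    obtain ⟨v', hw1, hw2⟩ := hC t κ φ' v hv3
    refine ⟨v', ?_, ?_⟩
    · rw [om_pull ho t hw1 hw2 (n j) (hW.hA (π t) j)]
      exact hv1
    · intro l hl hlj hpl
      rw [om_pull ho t hw1 hw2 (n l) (hW.hA (π t) l)]
      exact hv2 l hl hlj (hpull l hpl)

end tw

end Pool.Agent.H176.Mix
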